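import Pool.Agent.H93.CT.Defs

/-!
Statements of the modules of project CT.
-/

set_option linter.unusedVariables false
set_option synthInstance.maxSize 100000

namespace SW

/-! ## Part S: set theory -/

/-- BIT: a transitive set closed under small subsets -/
def BITStmt : Prop := ∀ (M : Type) [SetStr M] [ZFC M] (z : M), (∃ x, E x z) →
  ∃ H, Trans H ∧ ∀ a, Sub a H → Img z a → E a H

/-- DCX: dependent choice -/
def DCXStmt : Prop := ∀ (M : Type) [SetStr M] [ZFC M] (X x0 : M) (R : M → M → Prop), Cl2 R →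
  E x0 X → (∀ x, E x X → ∃ y, E y X ∧ R x y) →
  ∃ f, app f emp = x0 ∧ ∀ n, E n om → E (app f n) X ∧ R (app f n) (app f (suc n))

/-- SDR: distinct representatives of a countable family of infinite sets -/
def SDRStmt : Prop := ∀ (M : Type) [SetStr M] [ZFC M] (D : M) (S : M → M), Fn1 S → Cb D →
  (∀ d, E d D → ∀ e, Fnt e → ∃ x, E x (S d) ∧ ¬ E x e) →
  ∃ f, (∀ d, E d D → E (app f d) (S d)) ∧
    ∀ d d', E d D → E d' D → d ≠ d' → app f d ≠ app f d'

/-- NDF: facts about nodes, restrictions, meets -/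
structure NdFacts (M : Type) [SetStr M] [ZF M] : Prop where
  e0 : Nd (emp : M) emp
  zero : ∀ {v : M}, Nd emp v → v = emp
  dm : ∀ {a v : M}, Nd a v → dmn v = a
  uniq : ∀ {a b v : M}, Nd a v → Nd b v → a = b
  self : ∀ {a v : M}, Nd a v → res v a = v
  rs : ∀ {a c v : M}, Nd a v → Sub c a → Nd c (res v c)
  rr : ∀ {v c d : M}, Sub d c → res (res v c) d = res v d
  /-- subsets which are nodes are restrictions -/
  rsub : ∀ {a c u v : M}, Nd a v → Nd c u → Sub u v → Sub c a ∧ u = res v c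
  /-- a node is not a proper subset of a node with the same domain -/
  eq : ∀ {a v v' : M}, Nd a v → Nd a v' → Sub v v' → v = v'
  ext : ∀ {a v n : M}, Ord a → Nd a v → E n om → (∀ x, ¬ E (opair x n) v) →
    Nd (suc a) (ins (opair a n) v) ∧ res (ins (opair a n) v) a = v
  meet : ∀ {a v v' : M}, Ord a → Nd a v → Nd a v' → v ≠ v' → ∃ u, Mt v v' u
  symm : ∀ {v v' u : M}, Mt v v' u → Mt v' v u
  /-- meets and extensions -/
  mup : ∀ {a a' b b' v v' x x' u : M}, Ord a → Ord a' → Nd a v → Nd a' v' → Nd b x → Nd b' x' →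
    Sub v x → Sub v' x' → Mt v v' u → Mt x x' u
  mun : ∀ {a a' v v' u u' : M}, Ord a → Ord a' → Nd a v → Nd a' v' → Mt v v' u → Mt v v' u' →
    u = u'
  /-- meets and restrictions -/
  mdn : ∀ {b c x x' u : M}, Ord b → Nd b x → Nd b x' → E c b → res x c ≠ res x' c →
    Mt x x' u → Mt (res x c) (res x' c) u

/-- NDF -/
def NDFStmt : Prop := ∀ (M : Type) [SetStr M] [ZF M], NdFacts M

/-- facts about `Z` -/
structure ZFacts {M : Type} [SetStr M] [ZF M] (w Z : M) : Prop where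
  fnt : ∀ {a : M}, Fnt a → Sub a Z → E a Z
  eZ : E emp Z
  opZ : ∀ {a b : M}, E a Z → E b Z → E (opair a b) Z
  unp : ∀ {a b : M}, E (opair a b) Z → E a Z ∧ E b Z
  wZ : Sub w Z
  omZ : Sub om Z
  /-- nodes are countable and in `Z` -/
  nd : ∀ {a v : M}, E a w → Nd a v → Cb v ∧ E v Z
  /-- possible levels -/
  lev : ∀ {a t g : M}, E a w → (∀ v, E v t → Nd a v) → Cb t → Sub g om → E (opair t g) Z
  /-- possible entries of other columns -/
  row : ∀ {a x : M}, E a w → Cb x → (∀ z, E z x → ∃ v F, z = opair v F) →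
    (∀ v F, E (opair v F) x → Nd a v ∧ Fnt F ∧ Sub F om) → E x Z

/-- ZFX -/
def ZFXStmt : Prop := ∀ (M : Type) [SetStr M] [ZFC M] (w Z : M), Bs w Z → ZFacts w Z

/-- facts about `H` -/
structure HFacts {M : Type} [SetStr M] [ZF M] (w Z H : M) : Prop where
  ZH : Sub Z H
  opH : ∀ {a b : M}, E a H → E b H → E (opair a b) H
  /-- conditions over `I` are in `H`, small sets of pairs (node, condition) too -/
  cond : ∀ {I p : M}, Sub I H → E p (PQ w Z I) → E p H
  name : ∀ {I e : M}, Sub I H → Img Z e →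
    (∀ t, E t e → ∃ u q, E u (NU w) ∧ E q (PQ w Z I) ∧ t = opair u q) → E e H

/-- HFX -/
def HFXStmt : Prop := ∀ (M : Type) [SetStr M] [ZFC M] (w Z H : M), Bs w Z → Trans H →
  (∀ a, Sub a H → Img Z a → E a H) → HFacts w Z H

/-! ## Part P: conditions -/

/-- CFX: basic facts about conditions -/
structure CFacts {M : Type} [SetStr M] [ZF M] (w Z I : M) : Prop where
  /-- the height is an element of `w`, an ordinal -/
  ht : ∀ {a p : M}, Cnd w Z I a p → E a w ∧ Ord a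
  mem : ∀ {p : M}, E p (PQ w Z I) ↔ ∃ a, Cnd w Z I a p
  huniq : ∀ {a b p : M}, Cnd w Z I a p → Cnd w Z I b p → a = b
  /-- larger conditions are higher -/
  hmono : ∀ {a b p q : M}, Cnd w Z I a p → Cnd w Z I b q → Sub p q → Sub a b
  /-- entries of columns are below the height -/
  row : ∀ {a p K b x : M}, Cnd w Z I a p → Et p K b x → E b a ∧ E x Z ∧ (K = emp ∨ E K I)
  /-- all columns have all rows -/
  full : ∀ {a p K b : M}, Cnd w Z I a p → Col p K → E b a → ∃ x, Et p K b x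
  lev : ∀ {a p b : M}, Cnd w Z I a p → E b a → ∃ t g, Et p emp b (opair t g) ∧ Cb t ∧ Sub g om ∧
    (∀ v, E v t ↔ Lv p b v) ∧ ∃ v, E v t
  /-- extensions do not change the entries of the columns of `p` in rows below the height -/
  old : ∀ {a p q K b x : M}, Cnd w Z I a p → E q (PQ w Z I) → Sub p q → Col p K → E b a →
    Et q K b x → Et p K b x
  oldT : ∀ {a p q b x : M}, Cnd w Z I a p → E q (PQ w Z I) → Sub p q → E b a →
    Et q emp b x → Et p emp b x
  oldL : ∀ {a p q b v : M}, Cnd w Z I a p → E q (PQ w Z I) → Sub p q → E b a →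
    Lv q b v → Lv p b v
  oldB : ∀ {a p q K b v F : M}, Cnd w Z I a p → E q (PQ w Z I) → Sub p q → Col p K → E b a →
    InB q K b v F → InB p K b v F
  oldA : ∀ {a p q K b : M}, Cnd w Z I a p → E q (PQ w Z I) → Sub p q → Col p K → E b a →
    Act q K b → Act p K b
  lvh : ∀ {a p b v : M}, Cnd w Z I a p → Lv p b v → E b a ∧ Nd b v ∧ E v (NU w)
  /-- a column which is not `emp` is in `I` -/
  col : ∀ {a p K : M}, Cnd w Z I a p → Col p K → K ≠ emp → E K I

/-- CFX -/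
def CFXStmt : Prop := ∀ (M : Type) [SetStr M] [ZF M] (w Z I : M), Bs w Z → CFacts w Z I

/-- UNI: the union of an increasing sequence of conditions is a condition -/
def UNIStmt : Prop := ∀ (M : Type) [SetStr M] [ZFC M] (w Z I f : M), Bs w Z → ¬ E emp I →
  (∀ n, E n om → E (app f n) (PQ w Z I) ∧ Sub (app f n) (app f (suc n))) →
  ∃ a, Cnd w Z I a (uq f) ∧ ∀ n, E n om → Sub (app f n) (uq f) ∧
    ∀ b, Cnd w Z I b (app f n) → Sub b a

/-- the conditions on a new row for the column `K` of `p`, with nodes on the new level `t` in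
row `a` -/
structure RowOK {M : Type} [SetStr M] [ZF M] (a p t K x : M) : Prop where
  ctb : Cb x ∧ ∀ z, E z x → ∃ v F, z = opair v F
  nod : ∀ v F, E (opair v F) x → E v t ∧ Fnt F ∧ Sub F om ∧ Av F v
  fn : ∀ v F F', E (opair v F) x → E (opair v F') x → F = F'
  up : ∀ c v F e, E c a → InB p K c v F → (∃ z, E z x) → Fnt e →
    ∃ v' F', E (opair v' F') x ∧ Sub v v' ∧ Sub F F' ∧ F ≠ F' ∧ ¬ E v' e
  down : ∀ c v F, E c a → E (opair v F) x → Act p K c → ∃ F', InB p K c (res v c) F'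
  mt : ∀ v F v' F' u, E (opair v F) x → E (opair v' F') x → Mt v v' u →
    ∃ r, Sub r p ∧ E (opair u r) K
  lim : a ≠ emp → (∀ c, E c a → ∃ d, E d a ∧ E c d ∧ Act p K d) → ∃ z, E z x

/-- the conditions on a new level `t` in row `a` -/
structure LevOK {M : Type} [SetStr M] [ZF M] (a p t : M) : Prop where
  ctb : Cb t
  nod : ∀ v, E v t → Nd a v
  zero : a = emp → E emp t
  down : ∀ v c, E v t → E c a → Lv p c (res v c)
  up : ∀ c v F, E c a → Lv p c v → Fnt F → Sub F om → Av F v →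
    ∃ v', E v' t ∧ Sub v v' ∧ Av F v'

/-- ROW: adding a row; `h` assigns entries to the columns -/
def ROWStmt : Prop := ∀ (M : Type) [SetStr M] [ZFC M] (w Z I a p t g : M) (h : M → M), Bs w Z →
  ¬ E emp I → Cnd w Z I a p → Fn1 h → LevOK a p t → Sub g om →
  (∀ K, E K I → Col p K → RowOK a p t K (h K)) →
  ∃ q, Cnd w Z I (suc a) q ∧ Sub p q ∧ Et q emp a (opair t g) ∧
    (∀ K, E K I → (Col q K ↔ Col p K)) ∧ ∀ K, E K I → Col p K → Et q K a (h K)

/-- CLM: adding a column -/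
def CLMStmt : Prop := ∀ (M : Type) [SetStr M] [ZFC M] (w Z I a p K : M), Bs w Z →
  ¬ E emp I → Cnd w Z I a p → a ≠ emp → E K I → ∃ q, Cnd w Z I a q ∧ Sub p q ∧ Col q K

/-- FUS: fusion. `Q b v F` says that `(v, F)` is available in row `b` -/
def FUSStmt : Prop := ∀ (M : Type) [SetStr M] [ZFC M] (w Z a : M) (Q : M → M → M → Prop),
  Bs w Z → E a w → Cl3 Q →
  (∀ b v F, Q b v F → E b a ∧ Nd b v ∧ Fnt F ∧ Sub F om ∧ Av F v) →
  (∀ b v F c, Q b v F → E c a → ∃ b' v' F', E c b' ∧ E b b' ∧ Q b' v' F' ∧ Sub v v' ∧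
    Sub F F' ∧ F ≠ F') →
  ∀ b0 v0 F0, Q b0 v0 F0 → ∃ z F', Nd a z ∧ Sub v0 z ∧ Sub F0 F' ∧ F0 ≠ F' ∧ Fnt F' ∧
    Sub F' om ∧ Av F' z ∧ ∀ c, E c a → ∃ b v F, E c b ∧ Q b v F ∧ v = res z b

/-- BRT: branches of the tree of a condition of limit height -/
def BRTStmt : Prop := ∀ (M : Type) [SetStr M] [ZFC M] (w Z I a p : M), Bs w Z →
  Cnd w Z I a p → (∀ c, E c a → E (suc c) a) → ∀ b v F, Lv p b v → Fnt F → Sub F om → Av F v →
  ∃ z, Nd a z ∧ Sub v z ∧ Av F z ∧ ∀ c, E c a → Lv p c (res z c)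

/-- BRB: branches of the subtree of a column with unboundedly many active rows -/
def BRBStmt : Prop := ∀ (M : Type) [SetStr M] [ZFC M] (w Z I a p K : M), Bs w Z →
  ¬ E emp I → Cnd w Z I a p → a ≠ emp → E K I →
  (∀ c, E c a → ∃ d, E d a ∧ E c d ∧ Act p K d) →
  ∀ b v F e, InB p K b v F → Fnt e →
  ∃ z F', Nd a z ∧ Sub v z ∧ Sub F F' ∧ F ≠ F' ∧ Fnt F' ∧ Sub F' om ∧ Av F' z ∧
    (∀ c, E c a → Lv p c (res z c)) ∧
    (∀ c, E c a → Act p K c → ∃ F'', InB p K c (res z c) F'') ∧ ¬ E z e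

/-- RWB: the new entry at a limit for such a column -/
def RWBStmt : Prop := ∀ (M : Type) [SetStr M] [ZFC M] (w Z I a p K : M), Bs w Z →
  ¬ E emp I → Cnd w Z I a p → a ≠ emp → E K I →
  (∀ c, E c a → ∃ d, E d a ∧ E c d ∧ Act p K d) →
  ∃ x t, (∀ v, E v t ↔ ∃ F, E (opair v F) x) ∧ RowOK a p t K x ∧ E x Z ∧
    (∀ v, E v t → Nd a v ∧ ∀ c, E c a → Lv p c (res v c)) ∧ ∃ z, E z x

/-- EXT: every condition has an extension with one more row, the number set in this row is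
given -/
def EXTStmt : Prop := ∀ (M : Type) [SetStr M] [ZFC M] (w Z I a p g : M), Bs w Z →
  ¬ E emp I → Cnd w Z I a p → Sub g om →
  ∃ q t, Cnd w Z I (suc a) q ∧ Sub p q ∧ Et q emp a (opair t g)

/-- EXH: every condition has an extension of height above a given countable ordinal -/
def EXHStmt : Prop := ∀ (M : Type) [SetStr M] [ZFC M] (w Z I p c : M), Bs w Z →
  ¬ E emp I → E p (PQ w Z I) → E c w → ∃ q a, Cnd w Z I a q ∧ Sub p q ∧ E c a

/-- RST: restrictions of conditions to subsystems -/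
def RSTStmt : Prop := ∀ (M : Type) [SetStr M] [ZFC M] (w Z I J a p : M), Bs w Z →
  ¬ E emp I → Sub J I → Syq w Z J → Cnd w Z I a p →
  Cnd w Z J a (rj w Z J p) ∧ ∀ b v, Lv (rj w Z J p) b v ↔ Lv p b v

/-- AMA: amalgamation -/
def AMAStmt : Prop := ∀ (M : Type) [SetStr M] [ZFC M] (w Z I J a p q : M), Bs w Z →
  ¬ E emp I → Sub J I → Syq w Z J → Cnd w Z I (suc a) p → E q (PQ w Z J) →
  Sub (rj w Z J p) q → ∃ r, E r (PQ w Z I) ∧ Sub p r ∧ Sub q r

/-- DNU: density goes up to larger systems -/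
def DNUStmt : Prop := ∀ (M : Type) [SetStr M] [ZFC M] (w Z I J K : M), Bs w Z →
  ¬ E emp I → Sub J I → Syq w Z J → Dns w Z J K → Dns w Z I K

/-- MSX: the largest system exists -/
def MSXStmt : Prop := ∀ (M : Type) [SetStr M] [ZFC M] (w : M), IsW w → ∃ Z H I, Ms w Z H I

/-- SPL: finding splitting nodes above all nodes in row `c` of the column `K` -/
def SPLStmt : Prop := ∀ (M : Type) [SetStr M] [ZFC M] (w Z I a p K c : M), Bs w Z →
  ¬ E emp I → Cnd w Z I a p → E K I → Dns w Z I K → E c a →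
  ∃ q, E q (PQ w Z I) ∧ Sub p q ∧
    ∀ v F, InB p K c v F → ∃ d u r, Lv q d u ∧ Sub v u ∧ Av F u ∧ Sub r q ∧ E (opair u r) K

/-- SPR: a new active row from splitting nodes above the last active row `c` -/
def SPRStmt : Prop := ∀ (M : Type) [SetStr M] [ZFC M] (w Z I a q K c : M), Bs w Z →
  ¬ E emp I → Cnd w Z I (suc a) q → E K I → E c (suc a) → Act q K c →
  (∀ b, Act q K b → Sub b c) →
  (∀ v F, InB q K c v F → ∃ d u r, Lv q d u ∧ Sub v u ∧ Av F u ∧ Sub r q ∧ E (opair u r) K) →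
  ∃ q', Cnd w Z I (suc (suc a)) q' ∧ Sub q q' ∧ Act q' K (suc a)

/-- EXK: active rows above a given countable ordinal -/
def EXKStmt : Prop := ∀ (M : Type) [SetStr M] [ZFC M] (w Z I p K c : M), Bs w Z →
  ¬ E emp I → E p (PQ w Z I) → E K I → Dns w Z I K → E c w →
  ∃ q b, E q (PQ w Z I) ∧ Sub p q ∧ E c b ∧ Act q K b

/-- CCZ: antichains are images of `Z` -/
def CCZStmt : Prop := ∀ (M : Type) [SetStr M] [ZFC M] (w Z I A : M), Bs w Z → ¬ E emp I →
  Anti (PQ w Z I) A → Img Z A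

/-- NCN: nice names exist -/
def NCNStmt : Prop := ∀ (M : Type) [SetStr M] [ZFC M] (w Z I : M) (D : M → M → Prop), Bs w Z →
  ¬ E emp I → Cl2 D → ∃ e, Nic w Z I D e

/-! ## Part G: the extension -/

/-- NEW: closed forcing does not add countable subsets of sets of `M` -/
def NEWStmt : Prop := ∀ (M : Type) [SetStr M] [ZFC M] [Countable M] (F : FPoset M)
  (G : M → Prop), SCl F → Gen F G → ∀ [ZF (Ext F G)], ∀ (X : M) (a : Ext F G), Cb a →
  Sub a (emb F G X) → ∃ b, Sub b X ∧ Cb b ∧ a = emb F G b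

/-- WPX: the first uncountable ordinal is preserved -/
def WPXStmt : Prop := ∀ (M : Type) [SetStr M] [ZFC M] [Countable M] (F : FPoset M)
  (G : M → Prop) (w : M), SCl F → Gen F G → IsW w → ∀ [ZF (Ext F G)],
  IsW (emb F G w) ∧ ∀ x : M, Cb (emb F G x) ↔ Cb x

/-- SCP: the poset of conditions is closed -/
def SCPStmt : Prop := ∀ (M : Type) [SetStr M] [ZFC M] (w Z I : M), Bs w Z → ¬ E emp I →
  SCl (PG w Z I)

/-- TRX: the generic tree -/
def TRXStmt : Prop := ∀ (M : Type) [SetStr M] [ZFC M] [Countable M] (w Z I : M) (G : M → Prop),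
  Bs w Z → ¬ E emp I → Gen (PG w Z I) G → ∀ [ZFC (Ext (PG w Z I) G)],
  (∀ x, E x (mk (PG w Z I) G (TT w Z I)) ↔ ∃ p b v, G p ∧ Lv p b v ∧
    x = emb (PG w Z I) G v) ∧
  TrN (emb (PG w Z I) G w) (mk (PG w Z I) G (TT w Z I))

/-- CHX: the continuum hypothesis in the extension -/
def CHXStmt : Prop := ∀ (M : Type) [SetStr M] [ZFC M] [Countable M] (w Z I : M) (G : M → Prop),
  Bs w Z → ¬ E emp I → Gen (PG w Z I) G → ∀ [ZFC (Ext (PG w Z I) G)],
  ContinuumHypothesis (Ext (PG w Z I) G)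

/-- NDX: nice names of dense sets are dense -/
def NDXStmt : Prop := ∀ (M : Type) [SetStr M] [ZFC M] [Countable M] (w Z I t p e : M),
  Bs w Z → ¬ E emp I → E p (PQ w Z I) →
  FS (PG w Z I) QD p ![TT w Z I, t, chk (PG w Z I) (Fs om)] →
  Nic w Z I (DD w Z I t p) e → Dns w Z I e

/-- DDF: `DD` is definable -/
def DDFStmt : Prop := ∀ (M : Type) [SetStr M] [ZF M] (w Z I t p : M),
  Cl2 (fun u q : M => DD w Z I t p u q)

/-- BGX: the subtree of a column -/
def BGXStmt : Prop := ∀ (M : Type) [SetStr M] [ZFC M] [Countable M] (w Z I K : M)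
  (G : M → Prop), Bs w Z → ¬ E emp I → E K I → Dns w Z I K → Gen (PG w Z I) G →
  ∀ [ZFC (Ext (PG w Z I) G)],
  Sub (mk (PG w Z I) G (BB w Z I K)) (mk (PG w Z I) G (TT w Z I)) ∧
  (∀ c, E c (emb (PG w Z I) G w) → ∃ x, E x (mk (PG w Z I) G (BB w Z I K)) ∧ E c (dmn x)) ∧
  ∀ x y u, E x (mk (PG w Z I) G (BB w Z I K)) → E y (mk (PG w Z I) G (BB w Z I K)) →
    Mt x y u → ∃ u0 r p, u = emb (PG w Z I) G u0 ∧ G p ∧ Sub r p ∧ E (opair u0 r) K

/-- DIX: the dichotomy in the extension -/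
def DIXStmt : Prop := ∀ (M : Type) [SetStr M] [ZFC M] [Countable M] (w Z H I : M)
  (G : M → Prop), Ms w Z H I → Gen (PG w Z I) G → ∀ [ZFC (Ext (PG w Z I) G)],
  ∀ T, T = mk (PG w Z I) G (TT w Z I) → ∀ K, Sub K T →
  (∃ v F, E v T ∧ Fnt F ∧ Sub F om ∧ Av F v ∧ ∀ s, E s T → Sub v s → Av F s → ¬ E s K) ∨
  ∃ B, Sub B T ∧ (∀ c, E c (emb (PG w Z I) G w) → ∃ x, E x B ∧ E c (dmn x)) ∧
    ∀ x y u, E x B → E y B → Mt x y u → E u K

/-! ## Part E: the end -/

/-- ANT: an uncountable antichain from a subtree -/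
def ANTStmt : Prop := ∀ (M : Type) [SetStr M] [ZFC M] (w T B : M), IsW w → TrN w T → Sub B T →
  (∀ c, E c w → ∃ x, E x B ∧ E c (dmn x)) →
  ∃ A, Sub A T ∧ ¬ Cb A ∧ (∀ x y, E x A → E y A → x ≠ y → ¬ Sub x y ∧ ∃ u, Mt x y u) ∧
    ∀ x y u, E x A → E y A → x ≠ y → Mt x y u → ∃ x' y', E x' B ∧ E y' B ∧ Mt x' y' u

/-- ENE: the colouring axiom from the dichotomy -/
def ENEStmt : Prop := ∀ (M : Type) [SetStr M] [ZFC M] (w T : M), IsW w → TrN w T →
  (∀ K, Sub K T →
    (∃ v F, E v T ∧ Fnt F ∧ Sub F om ∧ Av F v ∧ ∀ s, E s T → Sub v s → Av F s → ¬ E s K) ∨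
    ∃ B, Sub B T ∧ (∀ c, E c w → ∃ x, E x B ∧ E c (dmn x)) ∧
      ∀ x y u, E x B → E y B → Mt x y u → E u K) → CatN T

/-- TRL: translation to the definitions used in the final statement -/
def TRLStmt : Prop := ∀ (M : Type) [SetStr M] [ZFC M] (w T : M), IsW w → TrN w T → CatN T →
  IsOmegaOne w ∧ IsOmega (om : M) ∧ IsAronszajnTree w om T ∧ SatisfiesCAT T

/-- CTM: every countable model of ZFC has a generic extension which is a model of ZFC with CH and
an Aronszajn tree satisfying CAT -/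
def CTMStmt : Prop := ∀ (M : Type) [SetStr M] [ZFC M] [Countable M],
  ∃ (N : Type) (_ : SetStr N) (_ : ZFC N) (i : M → N), IsGenExt i ∧ CHWithCATTree N

end SW
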