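import Pool.Agent.H93.CT.BGX

/-!
Module DIX of project CT: the dichotomy in the extension.
-/

set_option linter.unusedVariables false
set_option linter.unusedSectionVars false
set_option synthInstance.maxSize 100000

namespace SW

/-- DIX -/
theorem ct_dix (hncn : NCNStmt) (hhfx : HFXStmt) (hexk : EXKStmt) : DIXStmt := by
  intro M _ _ _ w Z H I G hm hG _ T hT K hK
  have hb := hm.bs
  have hI := hm.sys.1
  have hcf := ct_cfx M w Z I hb
  have hem := embF hG
  have htf := traF hG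
  obtain ⟨t, rfl⟩ := Quot.exists_rep K
  change Sub (mk (PG w Z I) G t) T at hK
  change (∃ v F, E v T ∧ Fnt F ∧ Sub F om ∧ Av F v ∧
    ∀ s, E s T → Sub v s → Av F s → ¬ E s (mk (PG w Z I) G t)) ∨
    ∃ B, Sub B T ∧ (∀ c, E c (emb (PG w Z I) G w) → ∃ x, E x B ∧ E c (dmn x)) ∧
    ∀ x y u, E x B → E y B → Mt x y u → E u (mk (PG w Z I) G t)
  by_cases h : QD (Ext (PG w Z I) G)
    (fun i => mk (PG w Z I) G (![TT w Z I, t, chk (PG w Z I) (Fs om)] i))
  · right
    obtain ⟨p, hp, hFS⟩ := ((semF (PG w Z I)).truth QD G hG _).1 h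
    have hpP : E p (PQ w Z I) := hG.sub p hp
    obtain ⟨e, he⟩ := hncn M w Z I (fun u q => DD w Z I t p u q) hb hI (ct_ddf M w Z I t p)
    have heH : E e H := (hhfx M w Z H hb hm.th hm.clo).name hm.sub he.2.2 (by
      intro z hz
      obtain ⟨u, q, h1, h2, _, h3⟩ := he.1 z hz
      exact ⟨u, q, h1, h2, h3⟩)
    have hsk : Sk w Z I e := by
      intro z hz
      obtain ⟨u, q, h1, h2, _, h3⟩ := he.1 z hz
      refine ⟨u, q, h3, ?_⟩
      unfold PQ at h2
      rw [mem_sep, mem_pow] at h2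
      exact h2.1
    have hd : Dns w Z I e := ct_ndx M w Z I t p e hb hI hpP hFS he
    have heI : E e I := hm.max e heH hsk hd
    obtain ⟨h1, h2, h3⟩ := ct_bgx hexk M w Z I e G hb hI heI hd hG
    subst hT
    refine ⟨_, h1, h2, fun x y u hx hy hmt => ?_⟩
    obtain ⟨u0, r, p', rfl, hp', hr, hur⟩ := h3 x y u hx hy hmt
    obtain ⟨u1, r1, _, hrP, hD, heq⟩ := he.1 _ hur
    rw [opair_inj] at heq
    obtain ⟨rfl, rfl⟩ := heq
    have hrG : G r := hG.up p' r hp' hrP hr
    rcases hD with hD | hD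
    · exfalso
      obtain ⟨s, hs, h4, h5⟩ := hG.dir r p hrG hp
      exact hD ⟨s, hG.sub s hs, h4, h5⟩
    · exact ((extF hG).mem_iff _ _).2 ⟨r, hrG, hD.2⟩
  · left
    unfold QD at h
    push Not at h
    obtain ⟨x, hx, f, hf, h1, h2⟩ := h
    have hx' : E x T := by rw [hT]; exact hx
    obtain ⟨f0, hf0, rfl⟩ := hem.trans _ _ (show E f (emb (PG w Z I) G (Fs om)) from hf)
    unfold Fs at hf0
    rw [mem_sep, mem_pow] at hf0
    have hsub : Sub (emb (PG w Z I) G f0) om := by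
      rw [← htf.om]
      exact (htf.sub _ _).2 hf0.1
    refine ⟨x, _, hx', htf.fnt _ hf0.2, hsub, fun n y hn hy => h1 n y hn (pairIn_iff.2 hy), ?_⟩
    intro s hs hxs hA hsK
    rw [hT] at hs
    obtain ⟨n, y, hn, hy⟩ := h2 s hs hsK hxs
    exact hA n y hn (pairIn_iff.1 hy)

end SW
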