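import Pool.Agent.H93.CT.Main

/-!
The statement CHWithCATTree is expressed by a sentence of the language of set theory.
-/

set_option linter.unusedVariables false
set_option synthInstance.maxSize 100000

namespace SW

theorem ct_Incl_u : UDf (fun M _ (w : Fin 2 → M) => Incl (w 0) (w 1)) := by
  unfold Incl; infer_instance

instance {n : ℕ} {t s : ∀ (M : Type) [SetStr M], (Fin n → M) → M} [UV t] [UV s] :
    UDf (fun M _ v => Incl (t M v) (s M v)) := ct_Incl_u.comp2 (R := fun _ _ a b => Incl a b) t s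

theorem ct_IsOmega_u : UDf (fun M _ (w : Fin 1 → M) => IsOmega (w 0)) := by
  unfold IsOmega IsInductive; infer_instance

instance {n : ℕ} {t : ∀ (M : Type) [SetStr M], (Fin n → M) → M} [UV t] :
    UDf (fun M _ v => IsOmega (t M v)) := ct_IsOmega_u.comp1 (R := fun _ _ a => IsOmega a) t

theorem ct_IsCountable_u : UDf (fun M _ (w : Fin 1 → M) => IsCountable (w 0)) := by
  unfold IsCountable; infer_instance

instance {n : ℕ} {t : ∀ (M : Type) [SetStr M], (Fin n → M) → M} [UV t] :
    UDf (fun M _ v => IsCountable (t M v)) :=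
  ct_IsCountable_u.comp1 (R := fun _ _ a => IsCountable a) t

theorem IsTransitive_u : UDf (fun M _ (w : Fin 1 → M) => IsTransitive (w 0)) := by
  unfold IsTransitive; infer_instance

instance {n : ℕ} {t : ∀ (M : Type) [SetStr M], (Fin n → M) → M} [UV t] :
    UDf (fun M _ v => IsTransitive (t M v)) :=
  IsTransitive_u.comp1 (R := fun _ _ a => IsTransitive a) t

theorem IsOmegaOne_u : UDf (fun M _ (w : Fin 1 → M) => IsOmegaOne (w 0)) := by
  unfold IsOmegaOne; infer_instance

instance {n : ℕ} {t : ∀ (M : Type) [SetStr M], (Fin n → M) → M} [UV t] :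
    UDf (fun M _ v => IsOmegaOne (t M v)) :=
  IsOmegaOne_u.comp1 (R := fun _ _ a => IsOmegaOne a) t

theorem IsFunction_u : UDf (fun M _ (w : Fin 3 → M) => IsFunction (w 0) (w 1) (w 2)) := by
  unfold IsFunction; infer_instance

instance {n : ℕ} {t s u : ∀ (M : Type) [SetStr M], (Fin n → M) → M} [UV t] [UV s] [UV u] :
    UDf (fun M _ v => IsFunction (t M v) (s M v) (u M v)) :=
  IsFunction_u.comp3 (R := fun _ _ a b c => IsFunction a b c) t s u

theorem IsRestriction_u : UDf (fun M _ (w : Fin 3 → M) => IsRestriction (w 0) (w 1) (w 2)) := by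
  unfold IsRestriction; infer_instance

instance {n : ℕ} {t s u : ∀ (M : Type) [SetStr M], (Fin n → M) → M} [UV t] [UV s] [UV u] :
    UDf (fun M _ v => IsRestriction (t M v) (s M v) (u M v)) :=
  IsRestriction_u.comp3 (R := fun _ _ a b c => IsRestriction a b c) t s u

theorem IsTreeOfFunctions_u :
    UDf (fun M _ (w : Fin 3 → M) => IsTreeOfFunctions (w 0) (w 1) (w 2)) := by
  unfold IsTreeOfFunctions; infer_instance

instance {n : ℕ} {t s u : ∀ (M : Type) [SetStr M], (Fin n → M) → M} [UV t] [UV s] [UV u] :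
    UDf (fun M _ v => IsTreeOfFunctions (t M v) (s M v) (u M v)) :=
  IsTreeOfFunctions_u.comp3 (R := fun _ _ a b c => IsTreeOfFunctions a b c) t s u

theorem IsAronszajnTree_u :
    UDf (fun M _ (w : Fin 3 → M) => IsAronszajnTree (w 0) (w 1) (w 2)) := by
  unfold IsAronszajnTree; infer_instance

instance {n : ℕ} {t s u : ∀ (M : Type) [SetStr M], (Fin n → M) → M} [UV t] [UV s] [UV u] :
    UDf (fun M _ v => IsAronszajnTree (t M v) (s M v) (u M v)) :=
  IsAronszajnTree_u.comp3 (R := fun _ _ a b c => IsAronszajnTree a b c) t s u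

theorem IsMeetOf_u : UDf (fun M _ (w : Fin 3 → M) => IsMeetOf (w 0) (w 1) (w 2)) := by
  unfold IsMeetOf; infer_instance

instance {n : ℕ} {t s u : ∀ (M : Type) [SetStr M], (Fin n → M) → M} [UV t] [UV s] [UV u] :
    UDf (fun M _ v => IsMeetOf (t M v) (s M v) (u M v)) :=
  IsMeetOf_u.comp3 (R := fun _ _ a b c => IsMeetOf a b c) t s u

theorem SatisfiesCAT_u : UDf (fun M _ (w : Fin 1 → M) => SatisfiesCAT (w 0)) := by
  unfold SatisfiesCAT; infer_instance

instance {n : ℕ} {t : ∀ (M : Type) [SetStr M], (Fin n → M) → M} [UV t] :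
    UDf (fun M _ v => SatisfiesCAT (t M v)) :=
  SatisfiesCAT_u.comp1 (R := fun _ _ a => SatisfiesCAT a) t

theorem CHWithCATTree_u : UDf (fun M _ (w : Fin 0 → M) => CHWithCATTree M) := by
  unfold CHWithCATTree ContinuumHypothesis
  infer_instance

/-- the sentence -/
theorem ct_sentence : ∃ φ : Fml 0, ∀ (N : Type) [SetStr N],
    Sat (M := N) φ Fin.elim0 ↔ CHWithCATTree N := by
  obtain ⟨f, hf⟩ := CHWithCATTree_u.out
  exact ⟨f, fun N _ => (hf N Fin.elim0).symm⟩

end SW
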