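import Pool.Agent.H17.CT.AMA
import Pool.Agent.H2.CT.ANT
import Pool.Agent.H2.CT.BIT
import Pool.Agent.H2.CT.ENE
import Pool.Agent.H2.CT.HFX
import Pool.Agent.H24.CT.MSX
import Pool.Agent.H31.CT.DCX
import Pool.Agent.H31.CT.NCN
import Pool.Agent.H31.CT.CCZ
import Pool.Agent.H31.CT.CHX
import Pool.Agent.H31.CT.TRX
import Pool.Agent.H28.CT.CLM
import Pool.Agent.H28.CT.ROW
import Pool.Agent.H28.CT.TRL
import Pool.Agent.H24.CT.RWB
import Pool.Agent.H24.CT.EXT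
import Pool.Agent.H65.CT.SPR
import Pool.Agent.H31.CT.NEW
import Pool.Agent.H31.CT.WPX
import Pool.Agent.H4.CT.BRB
import Pool.Agent.H4.CT.FUS
import Pool.Agent.H4.CT.SPL
import Pool.Agent.H47.CT.RST
import Pool.Agent.H47.CT.SDR
import Pool.Agent.H47.CT.UNI
import Pool.Agent.H47.CT.ZFX
import Pool.Agent.H65.CT.EXH
import Pool.Agent.H65.CT.EXK
import Pool.Agent.H93.CT.DIX
import Pool.Agent.H93.CT.Sent
import Pool.Agent.H93.MA.CBT
import Pool.Agent.H2.MA.SEQ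
import Pool.Agent.H8.MA.BIG
import Pool.Agent.H12.MA.WO
import Pool.Agent.H12.MA.ZORN
import Pool.Agent.H23.MA.MAXA
import Pool.Agent.H31.MA.FNX
import Pool.Agent.H35.MA.ACF
import Pool.Agent.H35.MA.ACX
import Pool.Agent.H35.MA.LSZ
import Pool.Agent.H35.MA.ZFM
import Pool.Agent.H36.MA.W0
import Pool.Agent.H97.MA.CTR

/-!
Assembly of all modules of project CT.
-/

set_option linter.unusedVariables false
set_option synthInstance.maxSize 100000

namespace SW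

theorem u_acf : ACFStmt := ma_acf
theorem u_cba : CBAStmt := ma_cba
theorem u_cbt : CBTStmt := ma_cbt u_acf
theorem u_wo : WOStmt := ma_wo u_acf
theorem u_zorn : ZORNStmt := ma_zorn u_acf
theorem u_maxa : MAXAStmt := ma_maxa u_zorn
theorem u_w0 : W0Stmt := ma_w0
theorem u_wf : WFStmt := ma_wf u_cbt
theorem u_big : BIGStmt := ma_big u_acf
theorem u_acx : ACXStmt := ma_acx u_wo

theorem u_bit : BITStmt := ct_bit u_big
theorem u_dcx : DCXStmt := ct_dcx u_acf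
theorem u_sdr : SDRStmt := ct_sdr u_acf
theorem u_ndf : NDFStmt := ct_ndf
theorem u_zfx : ZFXStmt := ct_zfx u_cbt u_wf
theorem u_hfx : HFXStmt := ct_hfx u_zfx u_cba
theorem u_cfx : CFXStmt := ct_cfx
theorem u_uni : UNIStmt := ct_uni u_cfx u_cbt u_wf
theorem u_fus : FUSStmt := ct_fus u_dcx
theorem u_brt : BRTStmt := ct_brt u_fus u_cfx u_ndf
theorem u_brb : BRBStmt := ct_brb u_fus u_cfx u_ndf
theorem u_rst : RSTStmt := ct_rst u_cbt
theorem u_ama : AMAStmt := ct_ama u_cfx u_zfx u_rst u_cbt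
theorem u_spl : SPLStmt := ct_spl u_dcx u_uni u_cfx
theorem u_scp : SCPStmt := ct_scp u_uni u_cfx
theorem u_new : NEWStmt := ct_new u_dcx
theorem u_wpx : WPXStmt := ct_wpx u_new
theorem u_ant : ANTStmt := ct_ant u_acf u_cbt
theorem u_ene : ENEStmt := ct_ene u_ant u_wf
theorem u_row : ROWStmt := ct_row u_cba u_wf u_zfx
theorem u_clm : CLMStmt := ct_clm u_cba u_zfx
theorem u_rwb : RWBStmt := ct_rwb u_sdr u_brb u_acf u_cbt u_cfx u_ndf u_zfx
theorem u_spr : SPRStmt := ct_spr u_acf u_cbt u_ndf u_cfx u_row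
theorem u_trl : TRLStmt := ct_trl u_cba ma_ctr u_wf
theorem u_ccz : CCZStmt := ct_ccz u_acf u_cba u_zfx
theorem u_ncn : NCNStmt := ct_ncn u_acf u_maxa u_ccz u_zfx
theorem u_ext : EXTStmt := ct_ext u_row u_rwb u_brt u_acf u_cbt u_cfx u_ndf
theorem u_exh : EXHStmt := ct_exh u_dcx u_wf u_cfx u_uni u_ext
theorem u_exk : EXKStmt := ct_exk u_cfx u_exh u_ext u_clm u_spl u_spr
theorem u_dnu : DNUStmt := ct_dnu u_cfx u_ext u_rst u_ama
theorem u_msx : MSXStmt := ct_msx u_bit u_dnu u_ext u_cfx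
theorem u_trx : TRXStmt := ct_trx u_exh ma_fnx u_cfx u_cba u_wpx u_scp u_ndf
theorem u_chx : CHXStmt := ct_chx u_new u_ext u_scp ma_ctr u_cfx u_cba u_wpx
theorem u_dix : DIXStmt := ct_dix u_ncn u_hfx u_exk

theorem u_main : CTMStmt :=
  ctmain u_w0 u_acx u_msx u_scp u_wpx u_trx u_chx u_dix u_ene u_trl

theorem u_all :
    (∀ (M : Type) [SetStr M] [ZFC M] [Countable M],
      ∃ (N : Type) (_ : SetStr N) (_ : ZFC N) (i : M → N), IsGenExt i ∧ CHWithCATTree N) ∧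
    (∀ (M : Type) [SetStr M] [ZFC M],
      ∃ (N : Type) (_ : SetStr N) (_ : ZFC N), CHWithCATTree N) ∧
    ∃ (N : Type) (_ : SetStr N) (_ : ZFC N), Countable N ∧ CHWithCATTree N :=
  ctfinal u_main ma_lsz ma_zfm

end SW
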