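import Pool.Agent.H93.CT.NDX

/-!
Module BGX of project CT: the subtree given by a column in the extension.
-/

set_option linter.unusedVariables false
set_option linter.unusedSectionVars false
set_option synthInstance.maxSize 100000

namespace SW

section
variable {M : Type} [SetStr M] [ZF M]

theorem bgx_lv {p q b v : M} (h : Sub p q) (h1 : Lv p b v) : Lv q b v := by
  obtain ⟨t, g, h2, h3⟩ := h1
  exact ⟨t, g, h _ h2, h3⟩

theorem bgx_in {p q K b v F : M} (h : Sub p q) (h1 : InB p K b v F) : InB q K b v F := by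
  obtain ⟨x, h2, h3⟩ := h1
  exact ⟨x, h _ h2, h3⟩

theorem mem_BB {w Z I K : M} (hb : Bs w Z) (hK : E K I) {G : M → Prop} (hG : Gen (PG w Z I) G)
    {x : Ext (PG w Z I) G} : E x (mk (PG w Z I) G (BB w Z I K)) ↔ ∃ p b v F, G p ∧
      InB p K b v F ∧ x = emb (PG w Z I) G v := by
  unfold BB
  rw [mem_mk_Nmx hG inferInstance]
  constructor
  · rintro ⟨p, v, hp, _, ⟨b, F, hb⟩, rfl⟩
    exact ⟨p, b, v, F, hp, hb, rfl⟩
  · rintro ⟨p, b, v, F, hp, hv, rfl⟩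
    have hcf := ct_cfx M w Z I hb
    obtain ⟨a, ha⟩ := hcf.mem.1 (hG.sub p hp)
    have h1 := ((ha.2.2 K hK).2.2.1 b v F hv).1
    exact ⟨p, v, hp, (hcf.lvh ha h1).2.2, ⟨b, F, hv⟩, rfl⟩

theorem bgx_ins {F : FPoset M} {G : M → Prop} (hG : Gen F G) [ZF (Ext F G)] {v d : M}
    (hv : ∀ z, E z v → ∃ x y, z = opair x y) : res (emb F G v) (emb F G d) = emb F G (res v d) := by
  have hem := embF hG
  have htf := traF hG
  refine ext fun z => ?_
  rw [mem_res]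
  constructor
  · rintro ⟨hz, x, y, hx, rfl⟩
    obtain ⟨x0, y0, rfl, rfl, h1⟩ := ndx_pair hG hv hz
    rw [← htf.opair, hem.mem, opair_mem_res]
    exact ⟨h1, (hem.mem _ _).1 hx⟩
  · intro hz
    obtain ⟨z0, hz0, rfl⟩ := hem.trans _ _ hz
    rw [mem_res] at hz0
    obtain ⟨h1, x, y, hx, rfl⟩ := hz0
    exact ⟨(hem.mem _ _).2 h1, emb F G x, emb F G y, (hem.mem _ _).2 hx, htf.opair x y⟩

/-- meets are absolute -/
theorem bgx_mt {F : FPoset M} {G : M → Prop} (hG : Gen F G) [ZF (Ext F G)] {v v' : M}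
    (hv : ∀ z, E z v → ∃ x y, z = opair x y) (hv' : ∀ z, E z v' → ∃ x y, z = opair x y)
    {u : Ext F G} (h : Mt (emb F G v) (emb F G v') u) : ∃ u0, u = emb F G u0 ∧ Mt v v' u0 := by
  obtain ⟨d, n, n', h1, h2, h3, h4, h5⟩ := h
  obtain ⟨d0, n0, rfl, rfl, h6⟩ := ndx_pair hG hv h1
  obtain ⟨d1, n1, hd1, rfl, h7⟩ := ndx_pair hG hv' h2
  have hd : d0 = d1 := ((embF hG).inj _ _).1 hd1
  subst hd
  rw [bgx_ins hG hv] at h4
  rw [bgx_ins hG hv'] at h5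
  refine ⟨res v d0, h4, d0, n0, n1, h6, h7, ?_, rfl, ?_⟩
  · rintro rfl
    exact h3 rfl
  · exact ((embF hG).inj _ _).1 (h4.symm.trans h5)

theorem bgx_dmn {F : FPoset M} {G : M → Prop} (hG : Gen F G) [ZF (Ext F G)] {b v : M}
    (hv : Nd b v) : dmn (emb F G v) = emb F G b := by
  have hem := embF hG
  have htf := traF hG
  refine ext fun z => ?_
  rw [mem_dmn]
  constructor
  · rintro ⟨y, hy⟩
    obtain ⟨x0, y0, rfl, rfl, h1⟩ := ndx_pair hG (ndx_nd hv) hy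
    exact (hem.mem _ _).2 (ndf_val hv h1).1
  · intro hz
    obtain ⟨z0, hz0, rfl⟩ := hem.trans _ _ hz
    obtain ⟨n, hn⟩ := hv.2.1 z0 hz0
    exact ⟨emb F G n, (ndx_opair hG).2 hn⟩

/-- two nodes of a column have a witnessed meet -/
theorem bgx_wit {w Z I K a p b b' v v' F F' u : M} (hb : Bs w Z) (hK : E K I)
    (ha : Cnd w Z I a p) (h : InB p K b v F) (h' : InB p K b' v' F') (hm : Mt v v' u) :
    ∃ r, Sub r p ∧ E (opair u r) K := by
  have hcf := ct_cfx M w Z I hb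
  have hk := ha.2.2 K hK
  have hao := (hcf.ht ha).2
  have key : ∀ {b b' v v' F F' : M}, InB p K b v F → InB p K b' v' F' → Mt v v' u → E b b' →
      ∃ r, Sub r p ∧ E (opair u r) K := by
    intro b b' v v' F F' h h' hm hbb
    obtain ⟨v'', F'', h1, h2, _⟩ := hk.2.2.2.2.1 b b' v F emp hbb h ⟨v', F', h'⟩ finF.emp
    have l1 := hcf.lvh ha (hk.2.2.1 _ _ _ h).1
    have l2 := hcf.lvh ha (hk.2.2.1 _ _ _ h').1
    have l3 := hcf.lvh ha (hk.2.2.1 _ _ _ h1).1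
    exact hk.2.2.2.2.2.2.1 b' v'' F'' v' F' u h1 h' (ndf_mup (hao.mem l1.1) (hao.mem l2.1) l1.2.1
      l2.2.1 l3.2.1 l2.2.1 h2 (Sub.refl _) hm)
  have l1 := hcf.lvh ha (hk.2.2.1 _ _ _ h).1
  have l2 := hcf.lvh ha (hk.2.2.1 _ _ _ h').1
  rcases (hao.mem l1.1).tri (hao.mem l2.1) with h1 | rfl | h1
  · exact key h h' hm h1
  · exact hk.2.2.2.2.2.2.1 b v F v' F' u h h' hm
  · exact key h' h ((ct_ndf M).symm hm) h1

end

/-- BGX -/
theorem ct_bgx (hexk : EXKStmt) : BGXStmt := by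
  intro M _ _ _ w Z I K G hb hI hK hD hG _
  have hcf := ct_cfx M w Z I hb
  have hem := embF hG
  have htf := traF hG
  refine ⟨?_, ?_, ?_⟩
  · intro x hx
    obtain ⟨p, b, v, F, hp, hv, rfl⟩ := (mem_BB hb hK hG).1 hx
    obtain ⟨a, ha⟩ := hcf.mem.1 (hG.sub p hp)
    exact (mem_TT hb hG).2 ⟨p, b, v, hp, ((ha.2.2 K hK).2.2.1 b v F hv).1, rfl⟩
  · intro c hc
    obtain ⟨c0, hc0, rfl⟩ := hem.trans _ _ hc
    obtain ⟨q, hq, b, hcb, v, F, hv⟩ := (genF hG).meetC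
      (fun q : M => ∃ b : M, E c0 b ∧ ∃ v F : M, InB q K b v F) inferInstance (by
        intro p hp
        obtain ⟨q, b, hq, hpq, hcb, v, F, hv⟩ := hexk M w Z I p K c0 hb hI hp hK hD hc0
        exact ⟨q, hq, hpq, b, hcb, v, F, hv⟩)
    obtain ⟨a, ha⟩ := hcf.mem.1 (hG.sub q hq)
    have hn := (hcf.lvh ha ((ha.2.2 K hK).2.2.1 b v F hv).1).2.1
    refine ⟨emb _ G v, (mem_BB hb hK hG).2 ⟨q, b, v, F, hq, hv, rfl⟩, ?_⟩
    rw [bgx_dmn hG hn]
    exact (hem.mem _ _).2 hcb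
  · intro x y u hx hy hm
    obtain ⟨p, b, v, F, hp, hv, rfl⟩ := (mem_BB hb hK hG).1 hx
    obtain ⟨p', b', v', F', hp', hv', rfl⟩ := (mem_BB hb hK hG).1 hy
    obtain ⟨r, hr, h1, h2⟩ := hG.dir p p' hp hp'
    obtain ⟨a, ha⟩ := hcf.mem.1 (hG.sub r hr)
    have h3 := bgx_in (p := p) (q := r) h1 hv
    have h4 := bgx_in (p := p') (q := r) h2 hv'
    have n1 := (hcf.lvh ha ((ha.2.2 K hK).2.2.1 b v F h3).1).2.1
    have n2 := (hcf.lvh ha ((ha.2.2 K hK).2.2.1 b' v' F' h4).1).2.1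
    obtain ⟨u0, rfl, hm0⟩ := bgx_mt hG (ndx_nd n1) (ndx_nd n2) hm
    obtain ⟨r', h5, h6⟩ := bgx_wit hb hK ha h3 h4 hm0
    exact ⟨u0, r', r, rfl, hr, h5, h6⟩

end SW
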