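import Pool.Agent.H93.CT.NDF

/-!
Module CFX of project CT: basic facts about conditions.
-/

set_option linter.unusedVariables false
set_option linter.unusedSectionVars false
set_option synthInstance.maxSize 100000

namespace SW

section
variable {M : Type} [SetStr M] [ZF M]

theorem cfx_emp_w {w : M} (hw : IsW w) : E emp w := by
  refine emp_mem_ord hw.1 fun h => hw.2.1 ?_
  rw [h]
  exact ⟨emp, fun y hy => absurd hy (not_mem_emp y), fun y _ _ hy => absurd hy (not_mem_emp y)⟩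

theorem cfx_ht {w Z I a p : M} (hb : Bs w Z) (h : Cnd w Z I a p) : E a w ∧ Ord a := by
  rcases h.1.1 with h1 | rfl
  · exact ⟨h1, hb.w1.1.mem h1⟩
  · exact ⟨cfx_emp_w hb.w1, Ord_emp⟩

theorem cfx_row {w Z I a p K b x : M} (h : Cnd w Z I a p) (he : Et p K b x) :
    E b a ∧ E x Z ∧ (K = emp ∨ E K I) := by
  obtain ⟨K', b', x', h1, h2, h3, h4⟩ := h.1.2.2.1 _ he
  rw [opair_inj, opair_inj] at h4
  obtain ⟨rfl, rfl, rfl⟩ := h4
  exact ⟨h2, h3, h1⟩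

theorem cfx_mem {w Z I p : M} (hb : Bs w Z) : E p (PQ w Z I) ↔ ∃ a, Cnd w Z I a p := by
  unfold PQ
  rw [mem_sep, mem_pow]
  refine ⟨fun h => h.2, fun h => ⟨?_, h⟩⟩
  obtain ⟨a, ha⟩ := h
  intro z hz
  obtain ⟨K, b, x, h1, h2, h3, rfl⟩ := ha.1.2.2.1 _ hz
  rw [mem_prod, mem_prod, mem_ins]
  exact ⟨h1.symm, hb.w1.1.trans (cfx_ht hb ha).1 h2, h3⟩

theorem cfx_mono {w Z I a b p q : M} (ha : Cnd w Z I a p) (hq : Cnd w Z I b q) (h : Sub p q) :
    Sub a b := by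
  intro c hc
  obtain ⟨x, hx⟩ := ha.1.2.2.2.2.2.1 c hc
  exact (cfx_row hq (h _ hx)).1

theorem cfx_fn {w Z I a p K b x x' : M} (h : Cnd w Z I a p) (h1 : Et p K b x)
    (h2 : Et p K b x') : x = x' := h.1.2.2.2.1 K b x x' h1 h2

theorem cfx_full {w Z I a p K b : M} (h : Cnd w Z I a p) (h1 : Col p K) (h2 : E b a) :
    ∃ x, Et p K b x := h.1.2.2.2.2.1 K b h1 h2

theorem cfx_old {w Z I a p q K b x : M} (hb : Bs w Z) (h : Cnd w Z I a p)
    (hq : E q (PQ w Z I)) (hs : Sub p q) (h1 : Col p K) (h2 : E b a) (h3 : Et q K b x) :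
    Et p K b x := by
  obtain ⟨c, hc⟩ := (cfx_mem hb).1 hq
  obtain ⟨x', hx'⟩ := cfx_full h h1 h2
  rw [cfx_fn hc h3 (hs _ hx')]
  exact hx'

theorem cfx_oldT {w Z I a p q b x : M} (hb : Bs w Z) (h : Cnd w Z I a p)
    (hq : E q (PQ w Z I)) (hs : Sub p q) (h2 : E b a) (h3 : Et q emp b x) :
    Et p emp b x := by
  obtain ⟨x', hx'⟩ := h.1.2.2.2.2.2.1 b h2
  exact cfx_old hb h hq hs ⟨b, x', hx'⟩ h2 h3

theorem cfx_lev {w Z I a p b : M} (hb : Bs w Z) (h : Cnd w Z I a p) (h1 : E b a) :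
    ∃ t g, Et p emp b (opair t g) ∧ Cb t ∧ Sub g om ∧ (∀ v, E v t ↔ Lv p b v) ∧
      ∃ v, E v t := by
  obtain ⟨x, hx⟩ := h.1.2.2.2.2.2.1 b h1
  obtain ⟨t, g, rfl, h2, h3⟩ := h.1.2.2.2.2.2.2 b x hx
  have h4 : ∀ v, E v t ↔ Lv p b v := by
    intro v
    constructor
    · intro hv
      exact ⟨t, g, hx, hv⟩
    · rintro ⟨t', g', h5, h6⟩
      have := cfx_fn h hx h5
      rw [opair_inj] at this
      rw [this.1]
      exact h6
  refine ⟨t, g, hx, h2, h3, h4, ?_⟩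
  have ha := (cfx_ht hb h).2
  -- the empty node
  have h5 : Lv p emp emp := by
    have hea : E emp a := by
      by_cases hbe : b = emp
      · rw [← hbe]; exact h1
      · exact ha.trans h1 (emp_mem_ord (ha.mem h1) hbe)
    obtain ⟨y, hy⟩ := h.1.2.2.2.2.2.1 emp hea
    exact h.2.1.2.1 y hy
  by_cases hbe : b = emp
  · exact ⟨emp, (h4 _).2 (by rw [hbe]; exact h5)⟩
  · obtain ⟨v', hv', _⟩ := h.2.1.2.2.2 emp emp b _ emp h5 (emp_mem_ord (ha.mem h1) hbe) hx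
      finF.emp (fun z hz => absurd hz (not_mem_emp z))
      (fun n x hn => absurd hn (not_mem_emp n))
    exact ⟨v', (h4 _).2 hv'⟩

end

/-- CFX -/
theorem ct_cfx : CFXStmt := by
  intro M _ _ w Z I hb
  have hNU : ∀ {b v : M}, E b w → Nd b v → E v (NU w) := by
    intro b v hbw hv
    unfold NU
    rw [mem_sep, mem_pow]
    refine ⟨fun z hz => ?_, b, hbw, hv⟩
    obtain ⟨x, n, hx, hn, rfl⟩ := hv.1 z hz
    rw [mem_prod]
    exact ⟨hb.w1.1.trans hbw hx, hn⟩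
  have hlvh : ∀ {a p b v : M}, Cnd w Z I a p → Lv p b v → E b a ∧ Nd b v ∧ E v (NU w) := by
    intro a p b v h hv
    obtain ⟨t, g, h1, h2⟩ := id hv
    have h3 := (cfx_row h h1).1
    have h4 := h.2.1.1 b v hv
    exact ⟨h3, h4, hNU (hb.w1.1.trans (cfx_ht hb h).1 h3) h4⟩
  refine
    { ht := fun h => cfx_ht hb h
      mem := cfx_mem hb
      huniq := fun h1 h2 => Sub.antisymm (cfx_mono h1 h2 (Sub.refl _)) (cfx_mono h2 h1 (Sub.refl _))
      hmono := fun h1 h2 h3 => cfx_mono h1 h2 h3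
      row := fun h1 h2 => cfx_row h1 h2
      full := fun h1 h2 h3 => cfx_full h1 h2 h3
      lev := fun h1 h2 => cfx_lev hb h1 h2
      old := fun h1 h2 h3 h4 h5 h6 => cfx_old hb h1 h2 h3 h4 h5 h6
      oldT := fun h1 h2 h3 h4 h5 => cfx_oldT hb h1 h2 h3 h4 h5
      oldL := ?_
      oldB := ?_
      oldA := ?_
      lvh := fun h1 h2 => hlvh h1 h2
      col := ?_ }
  · rintro a p q b v h1 h2 h3 h4 ⟨t, g, h5, h6⟩
    exact ⟨t, g, cfx_oldT hb h1 h2 h3 h4 h5, h6⟩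
  · rintro a p q K b v F h1 h2 h3 h4 h5 ⟨x, h6, h7⟩
    exact ⟨x, cfx_old hb h1 h2 h3 h4 h5 h6, h7⟩
  · rintro a p q K b h1 h2 h3 h4 h5 ⟨v, F, x, h6, h7⟩
    exact ⟨v, F, x, cfx_old hb h1 h2 h3 h4 h5 h6, h7⟩
  · rintro a p K h1 ⟨b, x, h2⟩ h3
    exact (cfx_row h1 h2).2.2.resolve_left h3

end SW
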