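import Pool.Agent.H13.MA.Core

/-!
The definitions used in the statement of the consistency theorem about Aronszajn trees: countable
ordinals, trees of functions from countable ordinals to the set of natural numbers, Aronszajn
trees, meets, the colouring axiom for a tree, the continuum hypothesis, all inside a structure
`M` for the membership relation.
-/

namespace SW

section
variable {M : Type} [SetStr M]

/-- `x` is a transitive set -/
def IsTransitive (x : M) : Prop := ∀ y, E y x → Incl y x

/-- `w` is the first uncountable ordinal: a transitive set of transitive sets, which is not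
countable, all members of which are countable -/
def IsOmegaOne (w : M) : Prop := (IsTransitive w ∧ ∀ y, E y w → IsTransitive y) ∧
  ¬ IsCountable w ∧ ∀ a, E a w → IsCountable a

/-- the continuum hypothesis: there are `w`, the first uncountable ordinal, and `f` which assigns
members of `w` to the subsets of the set of natural numbers, injectively -/
def ContinuumHypothesis (M : Type) [SetStr M] : Prop := ∃ w o f : M, IsOmegaOne w ∧ IsOmega o ∧
  (∀ x, Incl x o → ∃ a, E a w ∧ PairIn x a f) ∧
  ∀ x x' a, Incl x o → Incl x' o → PairIn x a f → PairIn x' a f → x = x'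

/-- `v` is a function from `a` to `o` -/
def IsFunction (v a o : M) : Prop := (∀ z, E z v → ∃ x y, E x a ∧ E y o ∧ IsOP z x y) ∧
  ∀ x, E x a → ∃ y, PairIn x y v ∧ ∀ y', PairIn x y' v → y' = y

/-- `u` is the restriction of the function `v` to `a` -/
def IsRestriction (u v a : M) : Prop := ∀ z, E z u ↔ E z v ∧ ∃ x y, E x a ∧ IsOP z x y

/-- `T` is a downwards closed set of functions from members of `w` to `o` -/
def IsTreeOfFunctions (w o T : M) : Prop := (∀ v, E v T → ∃ a, E a w ∧ IsFunction v a o) ∧
  ∀ v u a, E v T → E a w → IsRestriction u v a → E u T

/-- `T` is an Aronszajn tree, a downwards closed subtree of the tree of all functions from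
countable ordinals to the set `o` of natural numbers (`w` is the first uncountable ordinal):
every level (the set of members with domain `a`, for `a` in `w`) is nonempty and countable, and
every chain is countable -/
def IsAronszajnTree (w o T : M) : Prop := IsTreeOfFunctions w o T ∧
  (∀ a, E a w → ∃ v, E v T ∧ IsFunction v a o) ∧
  (∀ a L, E a w → (∀ v, E v L ↔ E v T ∧ IsFunction v a o) → IsCountable L) ∧
  ∀ C, Incl C T → (∀ u v, E u C → E v C → Incl u v ∨ Incl v u) → IsCountable C

/-- `u` is the meet of the incomparable functions `x` and `y`: for some `d` they have different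
values at `d`, and `u` is the restriction of both of them to `d` -/
def IsMeetOf (u x y : M) : Prop := ∃ d, (∃ m n, PairIn d m x ∧ PairIn d n y ∧ m ≠ n) ∧
  IsRestriction u x d ∧ IsRestriction u y d

/-- the tree `T` satisfies CAT: for every subset `K` of `T` there is an uncountable antichain `A`
of `T` such that the meets of distinct members of `A` all belong to `K`, or all of them do not
belong to `K` -/
def SatisfiesCAT (T : M) : Prop := ∀ K, Incl K T → ∃ A, Incl A T ∧ ¬ IsCountable A ∧
  (∀ x y, E x A → E y A → x ≠ y → ¬ Incl x y ∧ ∃ u, IsMeetOf u x y) ∧
  ((∀ x y u, E x A → E y A → x ≠ y → IsMeetOf u x y → E u K) ∨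
    ∀ x y u, E x A → E y A → x ≠ y → IsMeetOf u x y → ¬ E u K)

/-- CH and an Aronszajn tree satisfying CAT, in `M` -/
def CHWithCATTree (M : Type) [SetStr M] : Prop := ContinuumHypothesis M ∧
  ∃ w o T : M, IsOmegaOne w ∧ IsOmega o ∧ IsAronszajnTree w o T ∧ SatisfiesCAT T

end

end SW
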