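import Pool.Agent.H13.MA.Stmts
import Pool.Agent.H93.CT.Core

/-!
Definitions for project CT: nodes (injective functions from countable ordinals to the set of
natural numbers with coinfinite range), conditions (matrices with countably many columns), systems
of names, density, the poset.
-/

set_option linter.unusedVariables false
set_option synthInstance.maxSize 100000

namespace SW

section
variable {M : Type} [SetStr M] [ZF M]

/-! ### functions -/

/-- the domain of a set of pairs -/
noncomputable def dmn (v : M) : M := sep (sUn (sUn v)) (fun x => ∃ y, E (opair x y) v)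

theorem dmn_df : Fn1 (fun v : M => dmn v) := by unfold dmn; infer_instance

instance {n : ℕ} {t : (Fin n → M) → M} [ht : DfT t] : DfT (fun v => dmn (t v)) :=
  dmn_df.comp1 ht

theorem mem_dmn {v x : M} : E x (dmn v) ↔ ∃ y, E (opair x y) v := by
  unfold dmn
  rw [mem_sep]
  refine ⟨fun h => h.2, fun h => ⟨?_, h⟩⟩
  obtain ⟨y, hy⟩ := h
  rw [mem_sUn]
  exact ⟨sing x, by rw [mem_sUn]; exact ⟨_, hy, by simp [opair]⟩, by simp⟩

/-- the restriction of the set `v` of pairs to `a` -/
noncomputable def res (v a : M) : M := sep v (fun z => ∃ x y, E x a ∧ z = opair x y)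

theorem res_df : Fn2 (fun v a : M => res v a) := by unfold res; infer_instance

instance {n : ℕ} {t s : (Fin n → M) → M} [ht : DfT t] [hs : DfT s] :
    DfT (fun v => res (t v) (s v)) := res_df.comp2 ht hs

theorem mem_res {v a z : M} : E z (res v a) ↔ E z v ∧ ∃ x y, E x a ∧ z = opair x y := by
  unfold res; rw [mem_sep]

theorem opair_mem_res {v a x y : M} : E (opair x y) (res v a) ↔ E (opair x y) v ∧ E x a := by
  rw [mem_res]
  constructor
  · rintro ⟨h, x', y', hx, h'⟩
    rw [opair_inj] at h'
    rw [h'.1]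
    exact ⟨by rw [← h'.1]; exact h, hx⟩
  · rintro ⟨h, hx⟩
    exact ⟨h, x, y, hx, rfl⟩

/-- no member of `F` is a value of `v` -/
def Av (F v : M) : Prop := ∀ n x, E n F → ¬ E (opair x n) v

theorem Av_df : Cl2 (fun F v : M => Av F v) := by unfold Av; infer_instance

instance {n : ℕ} {t s : (Fin n → M) → M} [ht : DfT t] [hs : DfT s] :
    Df (fun v => Av (t v) (s v)) := Av_df.comp2 ht hs

/-- `v` is an injective function from `a` to the set of natural numbers, and infinitely many
natural numbers are not values of `v` -/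
def Nd (a v : M) : Prop := (∀ z, E z v → ∃ x n, E x a ∧ E n om ∧ z = opair x n) ∧
  (∀ x, E x a → ∃ n, E (opair x n) v) ∧
  (∀ x n n', E (opair x n) v → E (opair x n') v → n = n') ∧
  (∀ x x' n, E (opair x n) v → E (opair x' n) v → x = x') ∧
  ∀ F, Fnt F → ∃ n, E n om ∧ ¬ E n F ∧ ∀ x, ¬ E (opair x n) v

theorem Nd_df : Cl2 (fun a v : M => Nd a v) := by unfold Nd; infer_instance

instance {n : ℕ} {t s : (Fin n → M) → M} [ht : DfT t] [hs : DfT s] :
    Df (fun v => Nd (t v) (s v)) := Nd_df.comp2 ht hs

/-- the set of all nodes with domain in `w` -/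
noncomputable def NU (w : M) : M := sep (pow (prod w om)) (fun v => ∃ a, E a w ∧ Nd a v)

theorem NU_df : Fn1 (fun w : M => NU w) := by unfold NU; infer_instance

instance {n : ℕ} {t : (Fin n → M) → M} [ht : DfT t] : DfT (fun v => NU (t v)) :=
  NU_df.comp1 ht

/-- `u` is the meet of `v` and `v'` -/
def Mt (v v' u : M) : Prop := ∃ d n n', E (opair d n) v ∧ E (opair d n') v' ∧ n ≠ n' ∧
  u = res v d ∧ u = res v' d

theorem Mt_df : Cl3 (fun v v' u : M => Mt v v' u) := by unfold Mt; infer_instance

instance {n : ℕ} {t s u : (Fin n → M) → M} [ht : DfT t] [hs : DfT s] [hu : DfT u] :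
    Df (fun v => Mt (t v) (s v) (u v)) := Mt_df.comp3 ht hs hu

/-! ### matrices -/

/-- the matrix `p` has the entry `x` in column `K` and row `b` -/
def Et (p K b x : M) : Prop := E (opair K (opair b x)) p

theorem Et_df : Df (fun v : Fin 4 → M => Et (v 0) (v 1) (v 2) (v 3)) := by
  unfold Et; infer_instance

instance {n : ℕ} {t s u x : (Fin n → M) → M} [ht : DfT t] [hs : DfT s] [hu : DfT u]
    [hx : DfT x] : Df (fun v => Et (t v) (s v) (u v) (x v)) :=
  Et_df.comp4 (R := fun a b c d => Et a b c d) ht hs hu hx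

/-- `K` is a column of `p` -/
def Col (p K : M) : Prop := ∃ b x, Et p K b x

theorem Col_df : Cl2 (fun p K : M => Col p K) := by unfold Col; infer_instance

instance {n : ℕ} {t s : (Fin n → M) → M} [ht : DfT t] [hs : DfT s] :
    Df (fun v => Col (t v) (s v)) := Col_df.comp2 ht hs

/-- the node `v` is on level `b` of the tree of `p` (the entry of the column `emp` in row `b` is a
pair `(t, g)` where `t` is the level and `g` is a set of natural numbers) -/
def Lv (p b v : M) : Prop := ∃ t g, Et p emp b (opair t g) ∧ E v t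

theorem Lv_df : Cl3 (fun p b v : M => Lv p b v) := by unfold Lv; infer_instance

instance {n : ℕ} {t s u : (Fin n → M) → M} [ht : DfT t] [hs : DfT s] [hu : DfT u] :
    Df (fun v => Lv (t v) (s v) (u v)) := Lv_df.comp3 ht hs hu

/-- the node `v` with promise `F` is in the entry of column `K` in row `b` -/
def InB (p K b v F : M) : Prop := ∃ x, Et p K b x ∧ E (opair v F) x

theorem InB_df : Df (fun v : Fin 5 → M => InB (v 0) (v 1) (v 2) (v 3) (v 4)) := by
  unfold InB; infer_instance

instance {n : ℕ} {t s u x y : (Fin n → M) → M} [ht : DfT t] [hs : DfT s] [hu : DfT u]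
    [hx : DfT x] [hy : DfT y] : Df (fun v => InB (t v) (s v) (u v) (x v) (y v)) := by
  unfold InB; infer_instance

/-- the entry of column `K` in row `b` is nonempty -/
def Act (p K b : M) : Prop := ∃ v F, InB p K b v F

theorem Act_df : Cl3 (fun p K b : M => Act p K b) := by unfold Act; infer_instance

instance {n : ℕ} {t s u : (Fin n → M) → M} [ht : DfT t] [hs : DfT s] [hu : DfT u] :
    Df (fun v => Act (t v) (s v) (u v)) := Act_df.comp3 ht hs hu

/-- the shape of a matrix of height `a`: countably many entries, in columns `emp` and `K` in `I`,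
rows `b` in `a`, all entries in `Z`; at most one entry at each place; all columns have all rows;
the column `emp` exists, its entries are pairs `(t, g)` with `t` countable and `g` a subset
of `om` -/
def Shp (w Z I a p : M) : Prop := (E a w ∨ a = emp) ∧ Cb p ∧
  (∀ z, E z p → ∃ K b x, (K = emp ∨ E K I) ∧ E b a ∧ E x Z ∧ z = opair K (opair b x)) ∧
  (∀ K b x x', Et p K b x → Et p K b x' → x = x') ∧
  (∀ K b, Col p K → E b a → ∃ x, Et p K b x) ∧
  (∀ b, E b a → ∃ x, Et p emp b x) ∧
  ∀ b x, Et p emp b x → ∃ t g, x = opair t g ∧ Cb t ∧ Sub g om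

theorem Shp_df : Df (fun v : Fin 5 → M => Shp (v 0) (v 1) (v 2) (v 3) (v 4)) := by
  unfold Shp; infer_instance

instance {n : ℕ} {t s u x y : (Fin n → M) → M} [ht : DfT t] [hs : DfT s] [hu : DfT u]
    [hx : DfT x] [hy : DfT y] : Df (fun v => Shp (t v) (s v) (u v) (x v) (y v)) := by
  unfold Shp; infer_instance

/-- laws for the tree of `p`: its levels consist of nodes; the empty node is on level `emp`;
restrictions of nodes are in the tree; every node `v` has extensions on all higher levels,
which have no value in a given finite set `F`, if `v` has no value in `F` -/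
def TLw (p : M) : Prop := (∀ b v, Lv p b v → Nd b v) ∧
  (∀ x, Et p emp emp x → Lv p emp emp) ∧
  (∀ b v c, Lv p b v → E c b → Lv p c (res v c)) ∧
  ∀ c v b x F, Lv p c v → E c b → Et p emp b x → Fnt F → Sub F om → Av F v →
    ∃ v', Lv p b v' ∧ Sub v v' ∧ Av F v'

theorem TLw_df : Cl (fun p : M => TLw p) := by unfold TLw; infer_instance

instance {n : ℕ} {t : (Fin n → M) → M} [ht : DfT t] : Df (fun v => TLw (t v)) :=
  TLw_df.comp1 ht

/-- laws for the column `K` of `p`: entries are countable sets of pairs (node, promise), the entry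
in row `emp` is `{(emp, emp)}`; nodes are in the tree, promises are finite sets of numbers which
are not values of the node; each node has one promise; every node in row `c` has infinitely many
extensions in every active row above, with larger promises; restrictions to active rows are in
these rows; meets are in `K`: this is witnessed by some `r` contained in `p`; limits of active
rows are active -/
def KLw (K p : M) : Prop :=
  (∀ b x, Et p K b x → Cb x ∧ ∀ z, E z x → ∃ v F, z = opair v F) ∧
  (∀ x, Et p K emp x → x = sing (opair emp emp)) ∧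
  (∀ b v F, InB p K b v F → Lv p b v ∧ Fnt F ∧ Sub F om ∧ Av F v) ∧
  (∀ b v F F', InB p K b v F → InB p K b v F' → F = F') ∧
  (∀ c b v F e, E c b → InB p K c v F → Act p K b → Fnt e →
    ∃ v' F', InB p K b v' F' ∧ Sub v v' ∧ Sub F F' ∧ F ≠ F' ∧ ¬ E v' e) ∧
  (∀ c b v F, E c b → InB p K b v F → Act p K c → ∃ F', InB p K c (res v c) F') ∧
  (∀ b v F v' F' u, InB p K b v F → InB p K b v' F' → Mt v v' u →
    ∃ r, Sub r p ∧ E (opair u r) K) ∧
  ∀ b x, Et p K b x → b ≠ emp → (∀ c, E c b → ∃ d, E d b ∧ E c d ∧ Act p K d) → Act p K b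

theorem KLw_df : Cl2 (fun K p : M => KLw K p) := by unfold KLw; infer_instance

instance {n : ℕ} {t s : (Fin n → M) → M} [ht : DfT t] [hs : DfT s] :
    Df (fun v => KLw (t v) (s v)) := KLw_df.comp2 ht hs

/-- `p` is a condition of height `a` over `I` -/
def Cnd (w Z I a p : M) : Prop := Shp w Z I a p ∧ TLw p ∧ ∀ K, E K I → KLw K p

theorem Cnd_df : Df (fun v : Fin 5 → M => Cnd (v 0) (v 1) (v 2) (v 3) (v 4)) := by
  unfold Cnd; infer_instance

instance {n : ℕ} {t s u x y : (Fin n → M) → M} [ht : DfT t] [hs : DfT s] [hu : DfT u]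
    [hx : DfT x] [hy : DfT y] : Df (fun v => Cnd (t v) (s v) (u v) (x v) (y v)) := by
  unfold Cnd; infer_instance

/-- the set of all conditions over `I` -/
noncomputable def PQ (w Z I : M) : M :=
  sep (pow (prod (ins emp I) (prod w Z))) (fun p => ∃ a, Cnd w Z I a p)

theorem PQ_df : DfT (fun v : Fin 3 → M => PQ (v 0) (v 1) (v 2)) := by unfold PQ; infer_instance

instance {n : ℕ} {t s u : (Fin n → M) → M} [ht : DfT t] [hs : DfT s] [hu : DfT u] :
    DfT (fun v => PQ (t v) (s v) (u v)) := PQ_df.comp3 (f := fun a b c => PQ a b c) ht hs hu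

theorem ct_not_et (K b x : M) : ¬ Et emp K b x := fun h => not_mem_emp _ h

theorem ct_emp_cnd (w Z I : M) : Cnd w Z I emp emp := by
  refine ⟨⟨Or.inr rfl, ⟨emp, fun y hy => absurd hy (not_mem_emp y),
    fun y _ _ hy => absurd hy (not_mem_emp y)⟩, fun z hz => absurd hz (not_mem_emp z),
    fun K b x _ h => absurd h (ct_not_et K b x), fun K b _ hb => absurd hb (not_mem_emp b),
    fun b hb => absurd hb (not_mem_emp b), fun b x h => absurd h (ct_not_et _ b x)⟩, ?_, ?_⟩
  · refine ⟨fun b v h => ?_, fun x h => absurd h (ct_not_et _ _ x), fun b v c h => ?_,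
      fun c v b x F h _ h2 => absurd h2 (ct_not_et _ _ x)⟩
    · obtain ⟨t, g, h, _⟩ := h
      exact absurd h (ct_not_et _ _ _)
    · obtain ⟨t, g, h, _⟩ := h
      exact absurd h (ct_not_et _ _ _)
  · intro K hK
    refine ⟨fun b x h => absurd h (ct_not_et _ _ _), fun x h => absurd h (ct_not_et _ _ _), ?_, ?_,
      ?_, ?_, ?_, fun b x h => absurd h (ct_not_et _ _ _)⟩
    · rintro b v F ⟨x, h, _⟩
      exact absurd h (ct_not_et _ _ _)
    · rintro b v F F' ⟨x, h, _⟩
      exact absurd h (ct_not_et _ _ _)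
    · rintro c b v F e _ ⟨x, h, _⟩
      exact absurd h (ct_not_et _ _ _)
    · rintro c b v F _ ⟨x, h, _⟩
      exact absurd h (ct_not_et _ _ _)
    · rintro b v F v' F' u ⟨x, h, _⟩
      exact absurd h (ct_not_et _ _ _)

theorem ct_emp_PQ (w Z I : M) : E emp (PQ w Z I) := by
  unfold PQ
  rw [mem_sep, mem_pow]
  exact ⟨fun z hz => absurd hz (not_mem_emp z), emp, ct_emp_cnd w Z I⟩

/-- the notion of forcing: conditions over `I`, ordered by reverse inclusion -/
noncomputable def PG (w Z I : M) : FPoset M where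
  P := PQ w Z I
  le := fun p q => Sub q p
  one := emp
  le_df := inferInstance
  one_mem := ct_emp_PQ w Z I
  refl := fun p _ => Sub.refl p
  trans := fun p q r _ _ _ h1 h2 => Sub.trans h2 h1
  le_one := fun p _ z hz => absurd hz (not_mem_emp z)

/-! ### systems of names -/

/-- the members of the name `K` are pairs `(u, q)` where `q` is a set of entries with columns
`emp` or in `I` -/
def Sk (w Z I K : M) : Prop := ∀ t, E t K → ∃ u q, t = opair u q ∧
  Sub q (prod (ins emp I) (prod w Z))

theorem Sk_df : Df (fun v : Fin 4 → M => Sk (v 0) (v 1) (v 2) (v 3)) := by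
  unfold Sk; infer_instance

instance {n : ℕ} {t s u x : (Fin n → M) → M} [ht : DfT t] [hs : DfT s] [hu : DfT u]
    [hx : DfT x] : Df (fun v => Sk (t v) (s v) (u v) (x v)) :=
  Sk_df.comp4 (R := fun a b c d => Sk a b c d) ht hs hu hx

/-- `I` is a system of names -/
def Syq (w Z I : M) : Prop := ¬ E emp I ∧ ∀ K, E K I → Sk w Z I K

theorem Syq_df : Cl3 (fun w Z I : M => Syq w Z I) := by unfold Syq; infer_instance

instance {n : ℕ} {t s u : (Fin n → M) → M} [ht : DfT t] [hs : DfT s] [hu : DfT u] :
    Df (fun v => Syq (t v) (s v) (u v)) := Syq_df.comp3 ht hs hu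

/-- the name `K` is dense: above every node `v` of the tree of a condition `p` some node `u`
without values in a given finite set is put into `K` by an extension of `p` -/
def Dns (w Z I K : M) : Prop := ∀ p b v F, E p (PQ w Z I) → Lv p b v → Fnt F → Sub F om →
  Av F v → ∃ q c u r, E q (PQ w Z I) ∧ Sub p q ∧ Lv q c u ∧ Sub v u ∧ Av F u ∧ Sub r q ∧
    E (opair u r) K

theorem Dns_df : Df (fun v : Fin 4 → M => Dns (v 0) (v 1) (v 2) (v 3)) := by
  unfold Dns; infer_instance

instance {n : ℕ} {t s u x : (Fin n → M) → M} [ht : DfT t] [hs : DfT s] [hu : DfT u]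
    [hx : DfT x] : Df (fun v => Dns (t v) (s v) (u v) (x v)) :=
  Dns_df.comp4 (R := fun a b c d => Dns a b c d) ht hs hu hx

/-- the hypotheses on `w` and `Z` -/
structure Bs (w Z : M) : Prop where
  w1 : IsW w
  tz : Trans Z
  /-- `Z` is closed under countable subsets -/
  sc : ∀ a, Sub a Z → Cb a → E a Z

/-- `I` is the largest system of dense names inside `H` -/
structure Ms (w Z H I : M) : Prop where
  bs : Bs w Z
  th : Trans H
  clo : ∀ a, Sub a H → Img Z a → E a H
  sub : Sub I H
  sys : Syq w Z I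
  dns : ∀ K, E K I → Dns w Z I K
  max : ∀ K, E K H → Sk w Z I K → Dns w Z I K → E K I

/-- the restriction of a condition to the columns in `J` (and `emp`) -/
noncomputable def rj (w Z J p : M) : M := inter p (prod (ins emp J) (prod w Z))

theorem rj_df : DfT (fun v : Fin 4 → M => rj (v 0) (v 1) (v 2) (v 3)) := by
  unfold rj; infer_instance

instance {n : ℕ} {t s u x : (Fin n → M) → M} [ht : DfT t] [hs : DfT s] [hu : DfT u]
    [hx : DfT x] : DfT (fun v => rj (t v) (s v) (u v) (x v)) := by
  unfold rj; infer_instance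

/-- the union of a sequence -/
noncomputable def uq (f : M) : M := sUn (img om (fun n => app f n))

theorem mem_uq {f z : M} : E z (uq f) ↔ ∃ n, E n om ∧ E z (app f n) := by
  unfold uq
  rw [mem_sUn]
  constructor
  · rintro ⟨y, hy, hz⟩
    rw [mem_img] at hy
    obtain ⟨n, hn, rfl⟩ := hy
    exact ⟨n, hn, hz⟩
  · rintro ⟨n, hn, hz⟩
    exact ⟨_, mem_img.2 ⟨n, hn, rfl⟩, hz⟩

end

/-! ### names in the extension -/

section
variable {M : Type} [SetStr M] [ZF M]

/-- the name of the set of all `x` in `X` such that `R p x` for some `p` in the generic filter -/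
noncomputable def Nmx (F : FPoset M) (X : M) (R : M → M → Prop) : M :=
  sUn (img F.P (fun p => img (sep X (fun x => R p x)) (fun x => opair (chk F x) p)))

theorem mem_Nmx {F : FPoset M} {X : M} {R : M → M → Prop} (hR : Cl2 R) {z : M} :
    E z (Nmx F X R) ↔ ∃ p x, E p F.P ∧ E x X ∧ R p x ∧ z = opair (chk F x) p := by
  have h1 : Fn1 (fun p : M => img (sep X (fun x => R p x)) (fun x => opair (chk F x) p)) :=
    inferInstance
  unfold Nmx
  rw [mem_sUn]
  constructor
  · rintro ⟨y, hy, hz⟩
    rw [mem_img' h1] at hy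
    obtain ⟨p, hp, rfl⟩ := hy
    rw [mem_img' inferInstance] at hz
    obtain ⟨x, hx, rfl⟩ := hz
    rw [mem_sep' inferInstance] at hx
    exact ⟨p, x, hp, hx.1, hx.2, rfl⟩
  · rintro ⟨p, x, hp, hx, hr, rfl⟩
    refine ⟨_, (mem_img' h1).2 ⟨p, hp, rfl⟩, (mem_img' inferInstance).2 ⟨x, ?_, rfl⟩⟩
    rw [mem_sep' inferInstance]
    exact ⟨hx, hr⟩

theorem mem_mk_Nmx {F : FPoset M} {G : M → Prop} (hG : Gen F G) {X : M} {R : M → M → Prop}
    (hR : Cl2 R) {y : Ext F G} :
    E y (mk F G (Nmx F X R)) ↔ ∃ p x, G p ∧ E x X ∧ R p x ∧ y = emb F G x := by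
  rw [(extF hG).mem_iff']
  constructor
  · rintro ⟨d, s, h, hs, rfl⟩
    obtain ⟨p, x, hp, hx, hr, h2⟩ := (mem_Nmx hR).1 h
    rw [opair_inj] at h2
    obtain ⟨rfl, rfl⟩ := h2
    exact ⟨s, x, hs, hx, hr, rfl⟩
  · rintro ⟨p, x, hp, hx, hr, rfl⟩
    exact ⟨chk F x, p, (mem_Nmx hR).2 ⟨p, x, hG.sub p hp, hx, hr, rfl⟩, hp, rfl⟩

/-- the name of the tree -/
noncomputable def TT (w Z I : M) : M := Nmx (PG w Z I) (NU w) (fun p v => ∃ b, Lv p b v)

/-- the name of the subtree given by the column `K` -/
noncomputable def BB (w Z I K : M) : M :=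
  Nmx (PG w Z I) (NU w) (fun p v => ∃ b F, InB p K b v F)

/-- the name of the function from `w` to the power set of `om` -/
noncomputable def GG (w Z I : M) : M := Nmx (PG w Z I) (prod w (pow om))
  (fun p z => ∃ b t g, Et p emp b (opair t g) ∧ z = opair b g)

/-- `F` is closed: descending sequences have lower bounds -/
def SCl (F : FPoset M) : Prop := ∀ f, (∀ n, E n om → E (app f n) F.P ∧
  F.le (app f (suc n)) (app f n)) → ∃ q, E q F.P ∧ ∀ n, E n om → F.le q (app f n)

end

/-- the predicate for the forcing relation: `v 1` is dense in the tree `v 0`, with finite sets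
from `v 2` -/
def QD (N : Type) [SetStr N] (v : Fin 3 → N) : Prop := ∀ x, E x (v 0) → ∀ f, E f (v 2) →
  (∀ n y, E n f → ¬ PairIn y n x) →
  ∃ s, E s (v 0) ∧ E s (v 1) ∧ (∀ z, E z x → E z s) ∧ ∀ n y, E n f → ¬ PairIn y n s

instance QD_df : UDf QD := by
  unfold QD PairIn IsOP
  infer_instance

section
variable {M : Type} [SetStr M] [ZF M]

/-- the relation named below `p`: `q` is incompatible with `p`, or `q` contains `p` and forces
`u ∈ t` -/
def DD (w Z I t p u q : M) : Prop := ¬ Cpt (PQ w Z I) q p ∨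
  (Sub p q ∧ MemF (PG w Z I) q (chk (PG w Z I) u) t)

/-- `e` is a nice name for `D` -/
def Nic (w Z I : M) (D : M → M → Prop) (e : M) : Prop :=
  (∀ t, E t e → ∃ u q, E u (NU w) ∧ E q (PQ w Z I) ∧ D u q ∧ t = opair u q) ∧
  (∀ u q, E u (NU w) → E q (PQ w Z I) → D u q → ∃ q', E (opair u q') e ∧ Cpt (PQ w Z I) q' q) ∧
  Img Z e

/-- `v` is an injective function from `a` to the set of natural numbers -/
def Fj (a v : M) : Prop := (∀ z, E z v → ∃ x n, E x a ∧ E n om ∧ z = opair x n) ∧
  (∀ x, E x a → ∃ n, E (opair x n) v) ∧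
  (∀ x n n', E (opair x n) v → E (opair x n') v → n = n') ∧
  ∀ x x' n, E (opair x n) v → E (opair x' n) v → x = x'

/-- properties of the generic tree `T` -/
structure TrN (w T : M) : Prop where
  fn : ∀ v, E v T → ∃ a, E a w ∧ Fj a v
  emp : E emp T
  res : ∀ v a, E v T → E a (dmn v) → E (res v a) T
  lev : ∀ a, E a w → Cb (sep T (fun v => dmn v = a))
  ext : ∀ v c F, E v T → E c w → E (dmn v) c → Fnt F → Sub F om → Av F v →
    ∃ v', E v' T ∧ Sub v v' ∧ Av F v' ∧ dmn v' = c

/-- the colouring axiom for `T` -/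
def CatN (T : M) : Prop := ∀ K, Sub K T → ∃ A, Sub A T ∧ ¬ Cb A ∧
  (∀ x y, E x A → E y A → x ≠ y → ¬ Sub x y ∧ ∃ u, Mt x y u) ∧
  ((∀ x y u, E x A → E y A → x ≠ y → Mt x y u → E u K) ∨
    ∀ x y u, E x A → E y A → x ≠ y → Mt x y u → ¬ E u K)

end

end SW
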