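import Pool.Agent.H93.CT.Stmts
import Pool.Agent.H13.MA.TStmts

/-!
Assembly of project CT.
-/

set_option linter.unusedVariables false
set_option synthInstance.maxSize 100000

namespace SW

theorem ctmain (hw0 : W0Stmt) (hacx : ACXStmt) (hmsx : MSXStmt) (hscp : SCPStmt) (hwpx : WPXStmt)
    (htrx : TRXStmt) (hchx : CHXStmt) (hdix : DIXStmt) (hene : ENEStmt) (htrl : TRLStmt) :
    CTMStmt := by
  intro M _ _ _
  obtain ⟨w, hw⟩ := hw0 M
  obtain ⟨Z, H, I, hm⟩ := hmsx M w hw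
  obtain ⟨G, hG, _⟩ := (semF (PG w Z I)).ex (PG w Z I).one (PG w Z I).one_mem
  have hz : ZFC (Ext (PG w Z I) G) := hacx M (PG w Z I) G hG
  have hw' := (hwpx M (PG w Z I) G w (hscp M w Z I hm.bs hm.sys.1) hG hw).1
  have ht := (htrx M w Z I G hm.bs hm.sys.1 hG).2
  have hc := hene _ _ _ hw' ht (hdix M w Z H I G hm hG _ rfl)
  obtain ⟨h1, h2, h3, h4⟩ := htrl _ _ _ hw' ht hc
  exact ⟨Ext (PG w Z I) G, inferInstance, hz, emb (PG w Z I) G, valF hG,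
    hchx M w Z I G hm.bs hm.sys.1 hG, _, _, _, h1, h2, h3, h4⟩

theorem ctfinal (h : CTMStmt) (hl : LSZStmt) (hz : ZFMStmt) :
    (∀ (M : Type) [SetStr M] [ZFC M] [Countable M],
      ∃ (N : Type) (_ : SetStr N) (_ : ZFC N) (i : M → N), IsGenExt i ∧ CHWithCATTree N) ∧
    (∀ (M : Type) [SetStr M] [ZFC M],
      ∃ (N : Type) (_ : SetStr N) (_ : ZFC N), CHWithCATTree N) ∧
    ∃ (N : Type) (_ : SetStr N) (_ : ZFC N), Countable N ∧ CHWithCATTree N := by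
  refine ⟨h, fun M _ _ => ?_, ?_⟩
  · obtain ⟨M', _, _, hc⟩ := hl M
    obtain ⟨N, _, _, i, _, hN⟩ := h M'
    exact ⟨N, inferInstance, inferInstance, hN⟩
  · obtain ⟨M', _, _, hc⟩ := hz
    obtain ⟨N, _, _, i, hi, hN⟩ := h M'
    exact ⟨N, inferInstance, inferInstance, cnt M' N i hi, hN⟩

end SW
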