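import Pool.Agent.H93.CT.Stmts

/-!
Modules NDF and DDF of project CT: facts about nodes, restrictions and meets.
-/

set_option linter.unusedVariables false
set_option linter.unusedSectionVars false
set_option synthInstance.maxSize 100000

namespace SW

section
variable {M : Type} [SetStr M] [ZF M]

theorem ndf_val {a v x n : M} (h : Nd a v) (hx : E (opair x n) v) : E x a ∧ E n om := by
  obtain ⟨x', n', h1, h2, h3⟩ := h.1 _ hx
  rw [opair_inj] at h3
  rw [h3.1, h3.2]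
  exact ⟨h1, h2⟩

theorem ndf_dm {a v : M} (h : Nd a v) : dmn v = a := by
  refine ext fun x => ?_
  rw [mem_dmn]
  constructor
  · rintro ⟨n, hn⟩
    exact (ndf_val h hn).1
  · exact h.2.1 x

theorem ndf_self {a v : M} (h : Nd a v) : res v a = v := by
  refine ext fun z => ?_
  rw [mem_res]
  refine ⟨fun h => h.1, fun hz => ⟨hz, ?_⟩⟩
  obtain ⟨x, n, hx, _, rfl⟩ := h.1 z hz
  exact ⟨x, n, hx, rfl⟩

theorem ndf_rs {a c v : M} (h : Nd a v) (hc : Sub c a) : Nd c (res v c) := by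
  obtain ⟨h1, h2, h3, h4, h5⟩ := h
  refine ⟨?_, ?_, ?_, ?_, ?_⟩
  · intro z hz
    rw [mem_res] at hz
    obtain ⟨hz, x, y, hx, rfl⟩ := hz
    obtain ⟨x', n', _, hn', h6⟩ := h1 _ hz
    rw [opair_inj] at h6
    exact ⟨x, y, hx, by rw [h6.2]; exact hn', rfl⟩
  · intro x hx
    obtain ⟨n, hn⟩ := h2 x (hc x hx)
    exact ⟨n, opair_mem_res.2 ⟨hn, hx⟩⟩
  · intro x n n' hn hn'
    exact h3 x n n' (opair_mem_res.1 hn).1 (opair_mem_res.1 hn').1
  · intro x x' n hn hn'
    exact h4 x x' n (opair_mem_res.1 hn).1 (opair_mem_res.1 hn').1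
  · intro F hF
    obtain ⟨n, hn, hnF, h6⟩ := h5 F hF
    exact ⟨n, hn, hnF, fun x hx => h6 x (opair_mem_res.1 hx).1⟩

theorem ndf_rr {v c d : M} (h : Sub d c) : res (res v c) d = res v d := by
  refine ext fun z => ?_
  rw [mem_res, mem_res, mem_res]
  constructor
  · rintro ⟨⟨h1, _⟩, h2⟩
    exact ⟨h1, h2⟩
  · rintro ⟨h1, x, y, hx, rfl⟩
    exact ⟨⟨h1, x, y, h x hx, rfl⟩, x, y, hx, rfl⟩

theorem ndf_rsub {a c u v : M} (hv : Nd a v) (hu : Nd c u) (h : Sub u v) :
    Sub c a ∧ u = res v c := by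
  have h1 : Sub c a := by
    intro x hx
    obtain ⟨n, hn⟩ := hu.2.1 x hx
    exact (ndf_val hv (h _ hn)).1
  refine ⟨h1, ext fun z => ?_⟩
  rw [mem_res]
  constructor
  · intro hz
    obtain ⟨x, n, hx, _, rfl⟩ := hu.1 z hz
    exact ⟨h _ hz, x, n, hx, rfl⟩
  · rintro ⟨hz, x, y, hx, rfl⟩
    obtain ⟨n, hn⟩ := hu.2.1 x hx
    have := hv.2.2.1 x y n hz (h _ hn)
    rw [this]
    exact hn

/-- least difference -/
theorem ndf_meet {a v v' : M} (ha : Ord a) (hv : Nd a v) (hv' : Nd a v') (hne : v ≠ v') :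
    ∃ u, Mt v v' u := by
  have h1 : ∃ d, E d a ∧ ∃ n n', E (opair d n) v ∧ E (opair d n') v' ∧ n ≠ n' := by
    by_contra hcon
    push Not at hcon
    apply hne
    have key : ∀ {v v' : M}, Nd a v → Nd a v' → (∀ d, E d a → ∀ n n', E (opair d n) v →
        E (opair d n') v' → n = n') → Sub v v' := by
      intro v v' hv hv' hc z hz
      obtain ⟨x, n, hx, _, rfl⟩ := hv.1 z hz
      obtain ⟨n', hn'⟩ := hv'.2.1 x hx
      rw [hc x hx n n' hz hn']
      exact hn'
    refine Sub.antisymm (key hv hv' hcon) (key hv' hv fun d hd n n' h h' => ?_)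
    exact (hcon d hd n' n h' h).symm
  obtain ⟨d0, hd0, h2⟩ := h1
  obtain ⟨d, hdo, ⟨hda, n, n', hn, hn', hnn⟩, hmin, _⟩ := ord_min
    (C := fun d : M => E d a ∧ ∃ n n' : M, E (opair d n) v ∧ E (opair d n') v' ∧ n ≠ n')
    inferInstance (ha.mem hd0) ⟨hd0, h2⟩
  have key : ∀ {v v' : M}, Nd a v → Nd a v' → (∀ c, E c d → ∀ n n', E (opair c n) v →
      E (opair c n') v' → n = n') → Sub (res v d) (res v' d) := by
    intro v v' hv hv' hc z hz
    rw [mem_res] at hz ⊢
    obtain ⟨hz, x, y, hx, rfl⟩ := hz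
    obtain ⟨n', hn'⟩ := hv'.2.1 x (ha.trans hda hx)
    refine ⟨?_, x, y, hx, rfl⟩
    rw [hc x hx y n' hz hn']
    exact hn'
  have hc : ∀ c, E c d → ∀ n n', E (opair c n) v → E (opair c n') v' → n = n' := by
    intro c hc n n' h h'
    by_contra hne
    exact hmin c hc ⟨ha.trans hda hc, n, n', h, h', hne⟩
  refine ⟨res v d, d, n, n', hn, hn', hnn, rfl, Sub.antisymm (key hv hv' hc)
    (key hv' hv fun c hc' n n' h h' => (hc c hc' n' n h' h).symm)⟩

theorem ndf_mup {a a' b b' v v' x x' u : M} (ha : Ord a) (ha' : Ord a') (hv : Nd a v)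
    (hv' : Nd a' v') (hx : Nd b x) (hx' : Nd b' x') (h : Sub v x) (h' : Sub v' x')
    (hm : Mt v v' u) : Mt x x' u := by
  obtain ⟨d, n, n', hn, hn', hnn, h1, h2⟩ := hm
  have hd := (ndf_val hv hn).1
  have hd' := (ndf_val hv' hn').1
  have key : ∀ {a v b x : M}, Ord a → Nd a v → Nd b x → Sub v x → E d a →
      res v d = res x d := by
    intro a v b x ha hv hx h hd
    rw [(ndf_rsub hx hv h).2, ndf_rr (ha.sub_of_mem hd)]
  refine ⟨d, n, n', h _ hn, h' _ hn', hnn, ?_, ?_⟩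
  · rw [h1, key ha hv hx h hd]
  · rw [h2, key ha' hv' hx' h' hd']

theorem ndf_mun {a a' v v' u u' : M} (ha : Ord a) (ha' : Ord a') (hv : Nd a v) (hv' : Nd a' v')
    (hm : Mt v v' u) (hm' : Mt v v' u') : u = u' := by
  have key : ∀ {d n n' d' : M}, E (opair d n) v → E (opair d n') v' → n ≠ n' → E d d' →
      res v d' = res v' d' → False := by
    intro d n n' d' hn hn' hnn hd h
    have h1 : E (opair d n) (res v d') := opair_mem_res.2 ⟨hn, hd⟩
    rw [h] at h1
    exact hnn (hv'.2.2.1 d n n' (opair_mem_res.1 h1).1 hn')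
  obtain ⟨d, n, n', hn, hn', hnn, h1, h2⟩ := hm
  obtain ⟨d', m, m', hm, hm', hmm, h3, h4⟩ := hm'
  have hd : Ord d := ha.mem (ndf_val hv hn).1
  have hd' : Ord d' := ha.mem (ndf_val hv hm).1
  rcases hd.tri hd' with h5 | h5 | h5
  · exact (key hn hn' hnn h5 (by rw [← h3, ← h4])).elim
  · rw [h1, h3, h5]
  · exact (key hm hm' hmm h5 (by rw [← h1, ← h2])).elim

theorem ndf_mdn {b c x x' u : M} (hb : Ord b) (hx : Nd b x) (hx' : Nd b x') (hc : E c b)
    (hne : res x c ≠ res x' c) (hm : Mt x x' u) : Mt (res x c) (res x' c) u := by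
  obtain ⟨d, n, n', hn, hn', hnn, h1, h2⟩ := hm
  have hd : Ord d := hb.mem (ndf_val hx hn).1
  have hco : Ord c := hb.mem hc
  have hdc : E d c := by
    by_contra h
    have hcd : Sub c d := (hd.not_mem_iff hco).1 h
    apply hne
    rw [← ndf_rr hcd, ← ndf_rr (v := x') hcd, ← h1, ← h2]
  refine ⟨d, n, n', opair_mem_res.2 ⟨hn, hdc⟩, opair_mem_res.2 ⟨hn', hdc⟩, hnn, ?_, ?_⟩
  · rw [h1, ndf_rr (hco.sub_of_mem hdc)]
  · rw [h2, ndf_rr (hco.sub_of_mem hdc)]

theorem ndf_ext {a v n : M} (ha : Ord a) (hv : Nd a v) (hn : E n om)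
    (hnv : ∀ x, ¬ E (opair x n) v) :
    Nd (suc a) (ins (opair a n) v) ∧ res (ins (opair a n) v) a = v := by
  have hav : ∀ m, ¬ E (opair a m) v := fun m hm => not_mem_self a (ndf_val hv hm).1
  refine ⟨⟨?_, ?_, ?_, ?_, ?_⟩, ?_⟩
  · intro z hz
    rw [mem_ins] at hz
    rcases hz with hz | rfl
    · obtain ⟨x, m, hx, hm, rfl⟩ := hv.1 z hz
      exact ⟨x, m, mem_suc.2 (Or.inl hx), hm, rfl⟩
    · exact ⟨a, n, mem_suc.2 (Or.inr rfl), hn, rfl⟩
  · intro x hx
    rw [mem_suc] at hx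
    rcases hx with hx | rfl
    · obtain ⟨m, hm⟩ := hv.2.1 x hx
      exact ⟨m, mem_ins.2 (Or.inl hm)⟩
    · exact ⟨n, mem_ins.2 (Or.inr rfl)⟩
  · intro x m m' hm hm'
    rw [mem_ins, opair_inj] at hm hm'
    rcases hm with hm | ⟨rfl, rfl⟩
    · rcases hm' with hm' | ⟨rfl, rfl⟩
      · exact hv.2.2.1 x m m' hm hm'
      · exact absurd hm (hav m)
    · rcases hm' with hm' | ⟨_, rfl⟩
      · exact absurd hm' (hav m')
      · rfl
  · intro x x' m hm hm'
    rw [mem_ins, opair_inj] at hm hm'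
    rcases hm with hm | ⟨rfl, rfl⟩
    · rcases hm' with hm' | ⟨rfl, rfl⟩
      · exact hv.2.2.2.1 x x' m hm hm'
      · exact absurd hm (hnv x)
    · rcases hm' with hm' | ⟨rfl, _⟩
      · exact absurd hm' (hnv x')
      · rfl
  · intro F hF
    obtain ⟨m, hm, hmF, h⟩ := hv.2.2.2.2 (ins n F) (finF.ins hF)
    rw [mem_ins] at hmF
    push Not at hmF
    refine ⟨m, hm, hmF.1, fun x hx => ?_⟩
    rw [mem_ins, opair_inj] at hx
    rcases hx with hx | hx
    · exact h x hx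
    · exact hmF.2 hx.2
  · refine ext fun z => ?_
    rw [mem_res, mem_ins]
    constructor
    · rintro ⟨hz | rfl, x, y, hx, h⟩
      · exact hz
      · rw [opair_inj] at h
        rw [← h.1] at hx
        exact absurd hx (not_mem_self a)
    · intro hz
      obtain ⟨x, m, hx, _, rfl⟩ := hv.1 z hz
      exact ⟨Or.inl hz, x, m, hx, rfl⟩

theorem ndf_e0 : Nd (emp : M) emp := by
  refine ⟨fun z hz => absurd hz (not_mem_emp z), fun x hx => absurd hx (not_mem_emp x),
    fun x n n' h => absurd h (not_mem_emp _), fun x n n' h => absurd h (not_mem_emp _),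
    fun F hF => ?_⟩
  by_contra hcon
  push Not at hcon
  have h1 : Sub (om : M) F := by
    intro n hn
    by_contra hnF
    obtain ⟨x, hx⟩ := hcon n hn hnF
    exact not_mem_emp _ hx
  have h2 : Fnt (om : M) := finF.sub hF h1
  -- the number of elements of `om` is larger than every number
  have h3 : ∀ n : M, E n om → card n = n := by
    intro n hn
    refine om_ind (C := fun n : M => card n = n) inferInstance ?_ ?_ n hn
    · exact (finF (M := M)).card_emp
    · intro n hn ih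
      have : card (ins n n) = suc (card n) := finF.card_ins (finF.nat hn) (not_mem_self n)
      unfold suc at this ⊢
      rw [this, ih]
  have h4 : E (card (om : M)) om := finF.card_om h2
  have h5 : E (card (card (om : M))) (card om) := by
    refine finF.card_lt h2 (fun z hz => Trans_om _ h4 z hz) ?_
    intro h
    rw [h] at h4
    exact not_mem_self _ h4
  rw [h3 _ h4] at h5
  exact not_mem_self _ h5

end

/-- NDF -/
theorem ct_ndf : NDFStmt := by
  intro M _ _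
  refine ⟨ndf_e0, ?_, fun h => ndf_dm h, fun h h' => (ndf_dm h).symm.trans (ndf_dm h'),
    fun h => ndf_self h, fun h h' => ndf_rs h h', fun h => ndf_rr h,
    fun h h' h'' => ndf_rsub h h' h'', ?_, fun h1 h2 h3 h4 => ndf_ext h1 h2 h3 h4,
    fun h1 h2 h3 h4 => ndf_meet h1 h2 h3 h4, ?_,
    fun h1 h2 h3 h4 h5 h6 h7 h8 h9 => ndf_mup h1 h2 h3 h4 h5 h6 h7 h8 h9,
    fun h1 h2 h3 h4 h5 h6 => ndf_mun h1 h2 h3 h4 h5 h6,
    fun h1 h2 h3 h4 h5 h6 => ndf_mdn h1 h2 h3 h4 h5 h6⟩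
  · intro v h
    refine eq_emp fun z hz => ?_
    obtain ⟨x, n, hx, _⟩ := h.1 z hz
    exact not_mem_emp x hx
  · intro a v v' h h' hs
    have := (ndf_rsub h' h hs).2
    rw [ndf_self h'] at this
    exact this
  · rintro v v' u ⟨d, n, n', h1, h2, h3, h4, h5⟩
    exact ⟨d, n', n, h2, h1, h3.symm, h5, h4⟩

/-- DDF -/
theorem ct_ddf : DDFStmt := by
  intro M _ _ w Z I t p
  unfold DD
  infer_instance

end SW
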