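import Pool.Agent.H93.CT.CFX

/-!
Module NDX of project CT: nice names of dense sets are dense.
-/

set_option linter.unusedVariables false
set_option linter.unusedSectionVars false
set_option synthInstance.maxSize 100000

namespace SW

section
variable {M : Type} [SetStr M] [ZF M]

theorem ndx_opair {F : FPoset M} {G : M → Prop} (hG : Gen F G) [ZF (Ext F G)] {a b c : M} :
    E (opair (emb F G a) (emb F G b)) (emb F G c) ↔ E (opair a b) c := by
  rw [← (traF hG).opair, (embF hG).mem]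

/-- pairs in the image of a set of pairs -/
theorem ndx_pair {F : FPoset M} {G : M → Prop} (hG : Gen F G) [ZF (Ext F G)] {v : M}
    (hv : ∀ z, E z v → ∃ x y, z = opair x y) {x y : Ext F G} (h : E (opair x y) (emb F G v)) :
    ∃ x0 y0, x = emb F G x0 ∧ y = emb F G y0 ∧ E (opair x0 y0) v := by
  obtain ⟨z0, hz0, h1⟩ := (embF hG).trans _ _ h
  obtain ⟨x0, y0, rfl⟩ := hv z0 hz0
  rw [(traF hG).opair, opair_inj] at h1
  exact ⟨x0, y0, h1.1, h1.2, hz0⟩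

theorem ndx_nd {a v : M} (h : Nd a v) : ∀ z, E z v → ∃ x y, z = opair x y := by
  intro z hz
  obtain ⟨x, n, _, _, rfl⟩ := h.1 z hz
  exact ⟨x, n, rfl⟩

theorem ndx_av {F : FPoset M} {G : M → Prop} (hG : Gen F G) [ZF (Ext F G)] {f v : M}
    (hv : ∀ z, E z v → ∃ x y, z = opair x y) : Av (emb F G f) (emb F G v) ↔ Av f v := by
  constructor
  · intro h n x hn hx
    exact h (emb F G n) (emb F G x) (((embF hG).mem _ _).2 hn) ((ndx_opair hG).2 hx)
  · intro h n x hn hx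
    obtain ⟨x0, n0, rfl, rfl, h1⟩ := ndx_pair hG hv hx
    exact h n0 x0 (((embF hG).mem _ _).1 hn) h1

theorem mem_TT {w Z I : M} (hb : Bs w Z) {G : M → Prop} (hG : Gen (PG w Z I) G)
    {x : Ext (PG w Z I) G} : E x (mk (PG w Z I) G (TT w Z I)) ↔ ∃ p b v, G p ∧ Lv p b v ∧
      x = emb (PG w Z I) G v := by
  unfold TT
  rw [mem_mk_Nmx hG inferInstance]
  constructor
  · rintro ⟨p, v, hp, _, ⟨b, hb⟩, rfl⟩
    exact ⟨p, b, v, hp, hb, rfl⟩
  · rintro ⟨p, b, v, hp, hv, rfl⟩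
    have hcf := ct_cfx M w Z I hb
    obtain ⟨a, ha⟩ := hcf.mem.1 (hG.sub p hp)
    exact ⟨p, v, hp, (hcf.lvh ha hv).2.2, ⟨b, hv⟩, rfl⟩

end

/-- NDX -/
theorem ct_ndx : NDXStmt := by
  intro M _ _ _ w Z I t p e hb hI hp hFS hN p1 b v F hp1 hv hF hFo hA
  have hcf := ct_cfx M w Z I hb
  obtain ⟨a1, ha1⟩ := hcf.mem.1 hp1
  have hvn := hcf.lvh ha1 hv
  by_cases hc : Cpt (PQ w Z I) p1 p
  · obtain ⟨r1, hr1, h1, h2⟩ := hc
    obtain ⟨G, hG, hrG⟩ := (semF (PG w Z I)).ex r1 hr1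
    have hz : ZF (Ext (PG w Z I) G) := zfX hG
    have hem := embF hG
    have htf := traF hG
    have hpG : G p := hG.up r1 p hrG hp h2
    have hp1G : G p1 := hG.up r1 p1 hrG hp1 h1
    have hq := hFS G hG hpG
    have hFm : E F (Fs om) := by
      unfold Fs
      rw [mem_sep, mem_pow]
      exact ⟨hFo, hF⟩
    obtain ⟨s, hsT, hst, hvs, hFs⟩ := hq (emb (PG w Z I) G v)
      ((mem_TT hb hG).2 ⟨p1, b, v, hp1G, hv, rfl⟩) (emb (PG w Z I) G F)
      ((hem.mem F (Fs om)).2 hFm) (by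
        intro n y hn hy
        rw [pairIn_iff] at hy
        exact (ndx_av hG (ndx_nd hvn.2.1)).2 hA n y hn hy)
    obtain ⟨p2, c, s0, hp2, hs0, rfl⟩ := (mem_TT hb hG).1 hsT
    obtain ⟨p3, hp3, hm⟩ := ((extF hG).mem_iff _ _).1 hst
    obtain ⟨p4, hp4, h5, h6⟩ := hG.dir p2 p3 hp2 hp3
    obtain ⟨p5, hp5, h7, h8⟩ := hG.dir p4 r1 hp4 hrG
    have hp5P : E p5 (PQ w Z I) := hG.sub p5 hp5
    obtain ⟨a2, ha2⟩ := hcf.mem.1 (hG.sub p2 hp2)
    have hs0n := hcf.lvh ha2 hs0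
    have h5' : Sub p2 p4 := h5
    have h7' : Sub p4 p5 := h7
    have h8' : Sub r1 p5 := h8
    have hD : DD w Z I t p s0 p5 := by
      refine Or.inr ⟨h2.trans h8', ?_⟩
      exact (eqF (PG w Z I)).mmono hm hp5P (Sub.trans h6 h7)
    obtain ⟨q', hq', r, hr, h9, h10⟩ := hN.2.1 s0 p5 hs0n.2.2 hp5P hD
    refine ⟨r, c, s0, q', hr, (h1.trans h8').trans h10, ?_, ?_, ?_, h9, hq'⟩
    · obtain ⟨t', g', h11, h12⟩ := hs0
      exact ⟨t', g', h10 _ (h7' _ (h5' _ h11)), h12⟩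
    · intro z hz
      exact (hem.mem _ _).1 (hvs _ ((hem.mem _ _).2 hz))
    · rw [← ndx_av hG (ndx_nd hs0n.2.1)]
      intro n x hn hx
      exact hFs n x hn (pairIn_iff.2 hx)
  · obtain ⟨q', hq', r, hr, h1, h2⟩ := hN.2.1 v p1 hvn.2.2 hp1 (Or.inl hc)
    refine ⟨r, b, v, q', hr, h2, ?_, Sub.refl v, hA, h1, hq'⟩
    obtain ⟨t', g', h11, h12⟩ := hv
    exact ⟨t', g', h2 _ h11, h12⟩

end SW
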